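import Pool.Agent.Helper78.LM.Goals

/-!
# Machines with a stack and a linear memory: assembly of the first part
-/

namespace Pool.Agent.Helper78.LM

open Pool.Agent.Helper81.CC Pool.Agent.Helper51.ZP Pool.Agent.Bin Matrix Computability
open Pool.Agent.Helper31.TMSim Pool.Agent.Helper83.CL

theorem PT_of_comp {α β : Type} [ToData α] [ToData β] {f : α → β}
    (h : PolyTimeComputable (encOf α) (encOf β) f) : PolyTime f :=
  ⟨scomp_of_polyTimeComputable h⟩

theorem length_errs (A : LinMachine) (x : List Bool) : ∀ (ps : List (Bool × Bool)) (t : ℕ)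
    (c : Ctl) (v : Fin (A.dim x) → ZMod 2), (errs A x t c v ps).length = ps.length
  | [], _, _, _ => rfl
  | p :: ps, t, c, v => by simp [errs, length_errs A x ps]

theorem sum_ite_sgn {ι : Type} (I : Finset ι) (f : ι → Bool) :
    ∑ i ∈ I, sgnZ (b2z (f i)) =
      ((I.filter fun i => f i = false).card : ℤ) - ((I.filter fun i => f i = true).card : ℤ) := by
  classical
  rw [Finset.card_filter, Finset.card_filter]
  push_cast
  rw [← Finset.sum_sub_distrib]
  refine Finset.sum_congr rfl fun i _ => ?_
  cases f i <;> simp [sgnZ, b2z]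

section
variable (A : LinMachine) (x : List Bool)

/-- the allowed guess paths -/
def paths : Finset (Fin (A.stages x) → Bool × Bool) :=
  Finset.univ.filter fun ps => gacc A x 0 c0 (List.ofFn ps) = true

/-- the errors of a guess path -/
def er (ps : Fin (A.stages x) → Bool × Bool) (j : ℕ) : ZMod 2 :=
  (errs A x 0 c0 0 (List.ofFn ps)).getD j 0

theorem mem_paths (ps : Fin (A.stages x) → Bool × Bool) :
    ps ∈ paths A x ↔ gacc A x 0 c0 (List.ofFn ps) = true := by simp [paths]

theorem errs_zero_iff (ps : Fin (A.stages x) → Bool × Bool) :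
    (∀ e ∈ errs A x 0 c0 0 (List.ofFn ps), e = 0) ↔ ¬ ∃ j < A.stages x, er A x ps j ≠ 0 := by
  have hl : (errs A x 0 c0 0 (List.ofFn ps)).length = A.stages x := by
    rw [length_errs]; simp
  push Not
  constructor
  · intro h j hj
    have hj' : j < (errs A x 0 c0 0 (List.ofFn ps)).length := by rw [hl]; exact hj
    rw [er, List.getD_eq_getElem _ _ hj']
    exact h _ (List.getElem_mem hj')
  · intro h e he
    obtain ⟨j, hj, rfl⟩ := List.getElem_of_mem he
    have := h j (by rw [← hl]; exact hj)
    rwa [er, List.getD_eq_getElem _ _ hj] at this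

/-- the number of the accepted guess paths whose errors are orthogonal to all outputs of the shift
register -/
def orth (N : ℕ) (cc : List Bool) : ℕ :=
  ((paths A x).filter fun ps => ∀ s ∈ vecs N, lprod cc s (A.stages x) (er A x ps) = 0).card

theorem acc_le_orth (hacc : AccStmt) (N : ℕ) (cc : List Bool) : A.acc x ≤ orth A x N cc := by
  rw [hacc A x, orth]
  refine Finset.card_le_card fun ps hps => ?_
  simp only [Finset.mem_filter, Finset.mem_univ, true_and] at hps
  rw [Finset.mem_filter]
  refine ⟨(mem_paths A x ps).2 hps.1, fun s _ => ?_⟩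
  have h1 := (errs_zero_iff A x ps).1 hps.2
  push Not at h1
  rw [lprod]
  refine Finset.sum_eq_zero fun j hj => ?_
  rw [h1 j (Finset.mem_range.1 hj), mul_zero]

theorem orth_le_acc (hacc : AccStmt) (hnpv : NpvStmt) (hhsb : HsbStmt) {N : ℕ} (hN : 2 ≤ N) :
    ∃ cc ∈ vecs N,
      N * orth A x N cc ≤ N * A.acc x + A.stages x * 2 ^ (A.stages x + A.numReads x) := by
  classical
  obtain ⟨cc, hcc, h⟩ := hhsb N (A.stages x) (paths A x) (er A x) hN
  refine ⟨cc, hcc, ?_⟩
  have h1 : orth A x N cc ≤ A.acc x + ((paths A x).filter fun ps =>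
      (∃ j < A.stages x, er A x ps j ≠ 0) ∧
        ∀ s ∈ vecs N, lprod cc s (A.stages x) (er A x ps) = 0).card := by
    rw [hacc A x, orth]
    refine (Finset.card_le_card ?_).trans (Finset.card_union_le _ _)
    intro ps hps
    rw [Finset.mem_filter] at hps
    rw [Finset.mem_union, Finset.mem_filter, Finset.mem_filter]
    by_cases h2 : ∃ j < A.stages x, er A x ps j ≠ 0
    · exact Or.inr ⟨hps.1, h2, hps.2⟩
    · exact Or.inl ⟨Finset.mem_univ _, (mem_paths A x ps).1 hps.1, (errs_zero_iff A x ps).2 h2⟩
  have h2 := hnpv A x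
  have h3 : (paths A x).card ≤ 2 ^ (A.stages x + A.numReads x) := h2
  calc N * orth A x N cc ≤ N * (A.acc x + _) := Nat.mul_le_mul_left _ h1
    _ = N * A.acc x + N * _ := Nat.mul_add _ _ _
    _ ≤ N * A.acc x + A.stages x * (paths A x).card := Nat.add_le_add_left h _
    _ ≤ _ := Nat.add_le_add_left (Nat.mul_le_mul_left _ h3) _

theorem signs (hhsa : HsaStmt) (hlin : LinStmt) (hcni : CniStmt) {N : ℕ} (hN : 2 ≤ N)
    {cc : List Bool} (hcc : cc ∈ vecs N) :
    (((vecs N).map fun s => cnt [4, 5] (inst A x (lfsr cc s (A.stages x))) 0 []).sum : ℤ) -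
      (((vecs N).map fun s => cnt [6, 7] (inst A x (lfsr cc s (A.stages x))) 0 []).sum : ℤ) =
    ((vecs N).length : ℤ) * (orth A x N cc : ℤ) := by
  rw [orth, ← hhsa N (A.stages x) (paths A x) (er A x) hN cc hcc]
  have key : ∀ s : List Bool, ∑ i ∈ paths A x, sgnZ (lprod cc s (A.stages x) (er A x i)) =
      ((cnt [4, 5] (inst A x (lfsr cc s (A.stages x))) 0 [] : ℕ) : ℤ) -
        ((cnt [6, 7] (inst A x (lfsr cc s (A.stages x))) 0 [] : ℕ) : ℤ) := by
    intro s
    obtain ⟨-, h1, h2⟩ := hcni A x (lfsr cc s (A.stages x)) (length_lfsr _ _ _)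
    rw [h1, h2]
    have h3 : ∀ i ∈ paths A x, sgnZ (lprod cc s (A.stages x) (er A x i)) =
        sgnZ (b2z (pi A x 0 c0 (mids A x 0 (lfsr cc s (A.stages x))) (lfsr cc s (A.stages x))
          (List.ofFn i))) := by
      intro i _
      have h4 := hlin A x 0 c0 0 (lfsr cc s (A.stages x)) (List.ofFn i)
        (by rw [length_lfsr]; simp)
      rw [dotProduct_zero, zero_add] at h4
      rw [← h4, lprod]
      simp only [List.length_ofFn]
      rfl
    rw [Finset.sum_congr rfl h3, sum_ite_sgn]
    congr 2
    · rw [paths, Finset.filter_filter]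
    · rw [paths, Finset.filter_filter]
  simp only [key]
  induction vecs N with
  | nil => simp
  | cons a l ih =>
    simp only [List.map_cons, List.sum_cons, Nat.cast_add]
    linarith

end

/-- **AS1.** -/
theorem as1 (hacc : AccStmt) (hnpv : NpvStmt) (hhsa : HsaStmt) (hhsb : HsbStmt)
    (hlin : LinStmt) (hcni : CniStmt) (hpti : PtiStmt) (hpdd : PddStmt) (hpda : PdaStmt) :
    As1Stmt := by
  rintro c L ⟨A, u, g, hg, hR, hyes, hno⟩
  obtain ⟨G, hG, hGval⟩ := hpda hpdd
  have hgP : PolyTime g := PT_of_comp hg
  have hinst := hpti A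
  -- the size of the field
  set N : List Bool → ℕ := fun x =>
    u.eval x.length * A.T.eval x.length * (2 ^ c * (x.length + 1) ^ c) + 2 with hN
  have hNP : PolyTime N := by
    have h1 : PolyTime (fun x : List Bool => u.eval x.length) := PT_eval u (by fun_prop)
    have h2 : PolyTime (fun x : List Bool => A.T.eval x.length) := PT_eval A.T (by fun_prop)
    have h3 : PolyTime (fun x : List Bool => (x.length + 1) ^ c) :=
      PolyTime.pow (by fun_prop) c
    exact PolyTime.add (PolyTime.mul (PolyTime.mul h1 h2) (PolyTime.mul (by fun_prop) h3))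
      (by fun_prop)
  have hN2 : ∀ x, 2 ≤ N x := fun x => by simp [hN]
  -- the two counts
  set E : List ℕ → List Bool → List Bool → List Bool → BN := fun F x cc s =>
    G (F, inst A x (lfsr cc s (A.T.eval x.length)), 4 * A.w.eval x.length, A.w.eval x.length)
    with hE
  have hEval : ∀ F x cc s, (E F x cc s).val =
      cnt F (inst A x (lfsr cc s (A.stages x))) 0 [] := by
    intro F x cc s
    have hw : 0 < A.w.eval x.length := by
      have := A.next_lt (x, 0, 0, 0, false, false)
      simp only at this
      omega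
    refine hGval F _ _ _ (by omega) hw ?_
    exact (hcni A x (lfsr cc s (A.stages x)) (length_lfsr _ _ _)).1
  have hEP : ∀ F, PolyTime (fun z : (List Bool × List Bool) × List Bool =>
      E F z.1.1 z.1.2 z.2) := by
    intro F
    have h1 : PolyTime (fun z : (List Bool × List Bool) × List Bool => A.T.eval z.1.1.length) :=
      PT_eval A.T (by fun_prop)
    have h2 : PolyTime (fun z : (List Bool × List Bool) × List Bool => A.w.eval z.1.1.length) :=
      PT_eval A.w (by fun_prop)
    have h3 : PolyTime (fun z : (List Bool × List Bool) × List Bool =>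
        lfsr z.1.2 z.2 (A.T.eval z.1.1.length)) := PT_lfsr (by fun_prop) (by fun_prop) h1
    have h4 : PolyTime (fun z : (List Bool × List Bool) × List Bool =>
        inst A z.1.1 (lfsr z.1.2 z.2 (A.T.eval z.1.1.length))) :=
      PolyTime.comp (g := fun y : List Bool × List Bool => inst A y.1 y.2)
        (f := fun z : (List Bool × List Bool) × List Bool =>
          (z.1.1, lfsr z.1.2 z.2 (A.T.eval z.1.1.length))) hinst
        (PolyTime.pair (by fun_prop) h3)
    exact PolyTime.comp (g := G) (f := fun z : (List Bool × List Bool) × List Bool =>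
      (F, inst A z.1.1 (lfsr z.1.2 z.2 (A.T.eval z.1.1.length)), 4 * A.w.eval z.1.1.length,
        A.w.eval z.1.1.length)) hG
      (PolyTime.pair (by fun_prop) (PolyTime.pair h4 (PolyTime.pair
        (PolyTime.mul (by fun_prop) h2) h2)))
  -- the decision
  set lhs : List Bool → List Bool → BN := fun x cc =>
    BN.ofNat (g x + 1) * BN.pow2 (A.T.eval x.length) * BN.ofNat (vecs (N x)).length +
      BN.ofNat (u.eval x.length) * BN.sum ((vecs (N x)).map fun s => E [6, 7] x cc s) with hlhs
  set rhs : List Bool → List Bool → BN := fun x cc =>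
    BN.ofNat (u.eval x.length) * BN.sum ((vecs (N x)).map fun s => E [4, 5] x cc s) with hrhs
  have hsumP : ∀ F, PolyTime (fun z : List Bool × List Bool =>
      BN.sum ((vecs (N z.1)).map fun s => E F z.1 z.2 s)) := by
    intro F
    refine PolyTime.bn_sum ?_
    refine PolyTime.list_map (f := fun (z : List Bool × List Bool) s => E F z.1 z.2 s)
      (PT_vecs (PolyTime.comp (g := N) hNP (by fun_prop))) ?_
    exact hEP F
  have huP : PolyTime (fun z : List Bool × List Bool => BN.ofNat (u.eval z.1.length)) :=
    PolyTime.bn_ofNat (PT_eval u (by fun_prop))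
  have hlP : PolyTime (fun z : List Bool × List Bool => lhs z.1 z.2) := by
    refine PolyTime.bn_add (PolyTime.bn_mul (PolyTime.bn_mul (PolyTime.bn_ofNat
      (PolyTime.add (PolyTime.comp (g := g) hgP (by fun_prop)) (by fun_prop)))
      (PolyTime.bn_pow2 (PT_eval A.T (by fun_prop)))) (PolyTime.bn_ofNat (PolyTime.length
      (PT_vecs (PolyTime.comp (g := N) hNP (by fun_prop)))))) (PolyTime.bn_mul huP (hsumP _))
  have hrP : PolyTime (fun z : List Bool × List Bool => rhs z.1 z.2) :=
    PolyTime.bn_mul huP (hsumP _)
  refine inP_of_PT (f := fun x => (vecs (N x)).all fun cc => decide (lhs x cc ≤ rhs x cc)) ?_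
    fun x => ?_
  · refine PolyTime.all (f := fun x cc => decide (lhs x cc ≤ rhs x cc)) (PT_vecs hNP) ?_
    exact PolyTime.bn_le hlP hrP
  · rw [List.all_eq_true]
    have hsum : ∀ F cc, ((BN.sum ((vecs (N x)).map fun s => E F x cc s)).val) =
        ((vecs (N x)).map fun s => cnt F (inst A x (lfsr cc s (A.stages x))) 0 []).sum := by
      intro F cc
      rw [BN.val_sum, List.map_map]
      congr 1
      apply List.map_congr_left
      intro s _
      exact hEval F x cc s
    have hV : 0 < (vecs (N x)).length := by
      obtain ⟨k, -, hk⟩ := vecs_spec (N x)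
      exact List.length_pos_of_mem ((hk (List.replicate k false)).2 (by simp))
    have hiff : ∀ cc ∈ vecs (N x), (lhs x cc ≤ rhs x cc ↔
        (g x + 1) * 2 ^ A.stages x ≤ u.eval x.length * orth A x (N x) cc) := by
      intro cc hcc
      have h1 := signs A x hhsa hlin hcni (hN2 x) hcc
      rw [BN.le_def, hlhs, hrhs]
      simp only [BN.val_add, BN.val_mul, BN.val_ofNat, BN.val_pow2, hsum]
      set a := ((vecs (N x)).map fun s =>
        cnt [4, 5] (inst A x (lfsr cc s (A.stages x))) 0 []).sum
      set b := ((vecs (N x)).map fun s =>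
        cnt [6, 7] (inst A x (lfsr cc s (A.stages x))) 0 []).sum
      set V := (vecs (N x)).length
      have h2 : a = b + V * orth A x (N x) cc := by
        have : (a : ℤ) = b + V * orth A x (N x) cc := by linarith
        exact_mod_cast this
      rw [h2]
      have h3 : u.eval x.length * (b + V * orth A x (N x) cc) =
          u.eval x.length * orth A x (N x) cc * V + u.eval x.length * b := by ring
      rw [h3, Nat.add_le_add_iff_right]
      exact Nat.mul_le_mul_right_iff hV
    constructor
    · intro hx cc hcc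
      rw [decide_eq_true_iff, hiff cc hcc]
      exact (hyes x hx).trans (Nat.mul_le_mul_left _ (acc_le_orth A x hacc _ cc))
    · intro hall
      by_contra hx
      obtain ⟨cc, hcc, h1⟩ := orth_le_acc A x hacc hnpv hhsb (hN2 x)
      have h2 := (hiff cc hcc).1 (decide_eq_true_iff.1 (hall cc hcc))
      have h3 := hno x hx
      -- N (g + 1) 2^T ≤ N u orth ≤ N u acc + u T 2^(T + R) ≤ N g 2^T + u T 2^(T+R)
      have h4 : N x * ((g x + 1) * 2 ^ A.stages x) ≤ N x * (g x * 2 ^ A.stages x) +
          u.eval x.length * (A.stages x * 2 ^ (A.stages x + A.numReads x)) := by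
        calc N x * ((g x + 1) * 2 ^ A.stages x)
            ≤ N x * (u.eval x.length * orth A x (N x) cc) := Nat.mul_le_mul_left _ h2
          _ = u.eval x.length * (N x * orth A x (N x) cc) := by ring
          _ ≤ u.eval x.length * (N x * A.acc x +
              A.stages x * 2 ^ (A.stages x + A.numReads x)) := Nat.mul_le_mul_left _ h1
          _ = N x * (u.eval x.length * A.acc x) +
              u.eval x.length * (A.stages x * 2 ^ (A.stages x + A.numReads x)) := by ring
          _ ≤ _ := Nat.add_le_add_right (Nat.mul_le_mul_left _ h3) _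
      have h5 : 2 ^ A.numReads x ≤ 2 ^ c * (x.length + 1) ^ c := by
        have h6 : 2 ^ A.numReads x ≤ 2 ^ (c * Nat.log 2 x.length + c) :=
          Nat.pow_le_pow_right (by norm_num) (hR x)
        refine h6.trans ?_
        rw [pow_add, mul_comm c, pow_mul, mul_comm]
        refine Nat.mul_le_mul_left _ (Nat.pow_le_pow_left ?_ c)
        rcases Nat.eq_zero_or_pos x.length with h0 | h0
        · rw [h0]; simp
        · exact (Nat.pow_log_le_self 2 h0.ne').trans (Nat.le_succ _)
      have h7 : N x * 2 ^ A.stages x ≤
          u.eval x.length * (A.stages x * 2 ^ (A.stages x + A.numReads x)) := by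
        have : N x * ((g x + 1) * 2 ^ A.stages x) =
            N x * (g x * 2 ^ A.stages x) + N x * 2 ^ A.stages x := by ring
        omega
      have h8 : u.eval x.length * (A.stages x * 2 ^ (A.stages x + A.numReads x)) ≤
          (u.eval x.length * A.stages x * (2 ^ c * (x.length + 1) ^ c)) * 2 ^ A.stages x := by
        rw [pow_add]
        calc u.eval x.length * (A.stages x * (2 ^ A.stages x * 2 ^ A.numReads x))
            = u.eval x.length * A.stages x * 2 ^ A.numReads x * 2 ^ A.stages x := by ring
          _ ≤ _ := Nat.mul_le_mul_right _ (Nat.mul_le_mul_left _ h5)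
      have h9 := h7.trans h8
      have h10 := Nat.le_of_mul_le_mul_right h9 (by positivity)
      have h11 : N x = u.eval x.length * A.stages x * (2 ^ c * (x.length + 1) ^ c) + 2 := rfl
      omega

end Pool.Agent.Helper78.LM
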