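import Mathlib.Data.Matrix.Mul
import Mathlib.Data.Nat.Log
import Pool.Agent.Helper51.ZP.Defs

/-!
# Randomized machines with a stack and a memory with linear access

Turing machines are Mathlib's multi-stack machines; `PolyTimeComputable` is in
`Pool.Agent.Helper81.CxDefs`, the coding `encOf` of structured data (with numbers in unary) is in
`Pool.Agent.Helper81.CxData`, and `InP` and `Machine` are in `Pool.Agent.Helper51.ZP.Defs`.
-/

namespace Pool.Agent.Helper78.LM

open Pool.Agent.Helper81.CC Pool.Agent.Helper51.ZP Matrix

/-- The language `L` is in `RP`: a randomized polynomial-time algorithm accepts every `x ∈ L` with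
probability at least `1 / 2`, and never accepts an `x ∉ L`. -/
def InRP (L : Set (List Bool)) : Prop :=
  ∃ A : Machine,
    (∀ x ∈ L, 2 ^ A.coins x ≤
      2 * Nat.card {r : Fin (A.coins x) → Bool // A.M (x, List.ofFn r) = true}) ∧
    ∀ x, x ∉ L → ∀ r : Fin (A.coins x) → Bool, A.M (x, List.ofFn r) = false

/-- What the control of the machine sees at a stage: the input, the number of the stage, the
state, the symbol on top of the stack (`0` if the stack is empty), the coin tossed at this stage,
and the answer at the last stage. -/
abbrev View := List Bool × ℕ × ℕ × ℕ × Bool × Bool

/-- The vector over `F_2` with `m` coordinates given by a string of bits (filled up by `0`). -/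
def toVec (m : ℕ) (l : List Bool) : Fin m → ZMod 2 := fun i => if l.getD i false then 1 else 0

/-- A randomized machine which tosses one coin at each stage, and which has a control with
polynomially many states, a stack, and a memory that contains a vector over `F_2`. The control can
add vectors to the memory and it can test linear forms of the memory. -/
structure LinMachine where
  /-- the number of stages, as a polynomial in the length of the input -/
  T : Polynomial ℕ
  /-- the dimension of the memory -/
  m : Polynomial ℕ
  /-- the number of the states, and of the stack symbols -/
  w : Polynomial ℕ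
  /-- the next state -/
  next : View → ℕ
  /-- the symbols which replace the top symbol of the stack -/
  push : View → List ℕ
  /-- the vector added to the memory -/
  vec : View → List Bool
  /-- `row (x, t, i)` is the `i`-th row of the matrix applied to the memory at the stage `t` -/
  row : List Bool × ℕ × ℕ → List Bool
  /-- `form (x, t)` is the linear form tested at the stage `t` -/
  form : List Bool × ℕ → List Bool
  /-- `reads (x, t)` says that the stage `t` is a reading stage -/
  reads : List Bool × ℕ → Bool
  next_poly : PolyTimeComputable (encOf View) (encOf ℕ) next
  push_poly : PolyTimeComputable (encOf View) (encOf (List ℕ)) push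
  vec_poly : PolyTimeComputable (encOf View) (encOf (List Bool)) vec
  row_poly : PolyTimeComputable (encOf (List Bool × ℕ × ℕ)) (encOf (List Bool)) row
  form_poly : PolyTimeComputable (encOf (List Bool × ℕ)) (encOf (List Bool)) form
  reads_poly : PolyTimeComputable (encOf (List Bool × ℕ)) (encOf Bool) reads
  next_lt : ∀ z, next z < w.eval z.1.length
  push_lt : ∀ z, ∀ s ∈ push z, s < w.eval z.1.length
  push_le : ∀ z, (push z).length ≤ 2

/-- Configurations of a machine with a memory of dimension `m`. -/
structure Conf (m : ℕ) where
  /-- the state -/
  q : ℕ
  /-- the contents of the stack, the top symbol first -/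
  st : List ℕ
  /-- the contents of the memory -/
  v : Fin m → ZMod 2
  /-- the answer at the last stage -/
  o : Bool

namespace LinMachine

variable (A : LinMachine)

/-- The number of stages on the input `x`. -/
def stages (x : List Bool) : ℕ := A.T.eval x.length

/-- The dimension of the memory on the input `x`. -/
def dim (x : List Bool) : ℕ := A.m.eval x.length

/-- The matrix applied to the memory at the stage `t`. -/
def mat (x : List Bool) (t : ℕ) : Matrix (Fin (A.dim x)) (Fin (A.dim x)) (ZMod 2) :=
  fun i => toVec (A.dim x) (A.row (x, t, i))

/-- What the control sees at the stage `t` in the configuration `c` with the coin `b`. -/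
def view (x : List Bool) (t : ℕ) (b : Bool) (c : Conf (A.dim x)) : View :=
  (x, t, c.q, c.st.headD 0, b, c.o)

/-- The memory after the stage `t`: the matrix of the stage is applied to the memory, and the
vector chosen by the control is added. -/
def mem (x : List Bool) (t : ℕ) (b : Bool) (c : Conf (A.dim x)) : Fin (A.dim x) → ZMod 2 :=
  A.mat x t *ᵥ c.v + toVec (A.dim x) (A.vec (A.view x t b c))

/-- The value of the linear form of the stage `t`, after the memory has been updated. -/
def value (x : List Bool) (t : ℕ) (b : Bool) (c : Conf (A.dim x)) : ZMod 2 :=
  toVec (A.dim x) (A.form (x, t)) ⬝ᵥ A.mem x t b c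

/-- The stage `t` with the coin `b` in the configuration `c`. At a reading stage the value of the
linear form is the answer, which the control sees at the next stage. At all other stages the run
fails if the value of the linear form is not `0`. -/
def step (x : List Bool) (t : ℕ) (b : Bool) (c : Conf (A.dim x)) : Option (Conf (A.dim x)) :=
  if A.reads (x, t) = true ∨ A.value x t b c = 0 then
    some ⟨A.next (A.view x t b c), A.push (A.view x t b c) ++ c.st.tail, A.mem x t b c,
      decide (A.value x t b c = 1)⟩
  else none

/-- The run with the coins `ρ`, which starts at the stage `t` in the configuration `c`; the result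
is `none` if the run fails. -/
def run (x : List Bool) : ℕ → List Bool → Conf (A.dim x) → Option (Conf (A.dim x))
  | _, [], c => some c
  | t, b :: ρ, c => (A.step x t b c).bind (run x (t + 1) ρ)

/-- The run with the coins `ρ` accepts: it does not fail, and it ends in the state `1` with an
empty stack. It starts in the state `0` with an empty stack and with the memory `0`. -/
def Accepts (x : List Bool) (ρ : List Bool) : Prop :=
  ∃ c, A.run x 0 ρ ⟨0, [], 0, false⟩ = some c ∧ c.q = 1 ∧ c.st = []

/-- The number of the accepting runs. -/
noncomputable def acc (x : List Bool) : ℕ :=
  Nat.card {ρ : Fin (A.stages x) → Bool // A.Accepts x (List.ofFn ρ)}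

/-- The number of the reading stages on the input `x`. -/
def numReads (x : List Bool) : ℕ :=
  ((List.range (A.stages x)).filter fun t => A.reads (x, t)).length

end LinMachine

/-- `L` is decided with a gap by a machine with at most `R |x|` reading stages: for some number
`g x`, computable in polynomial time, and a polynomial `u`, the probability that the machine
accepts is at least `(g x + 1) / u |x|` if `x ∈ L` and at most `g x / u |x|` if `x ∉ L`. -/
def DecidedWithGap (R : ℕ → ℕ) (L : Set (List Bool)) : Prop :=
  ∃ (A : LinMachine) (u : Polynomial ℕ) (g : List Bool → ℕ),
    PolyTimeComputable (encOf (List Bool)) (encOf ℕ) g ∧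
    (∀ x, A.numReads x ≤ R x.length) ∧
    (∀ x ∈ L, (g x + 1) * 2 ^ A.stages x ≤ u.eval x.length * A.acc x) ∧
    (∀ x, x ∉ L → u.eval x.length * A.acc x ≤ g x * 2 ^ A.stages x)

/-- `L` is decided with one-sided error by a machine without stack, with a constant number of
states, and with at most `|x| ^ (1 / k)` reading stages. -/
def InLin (k : ℕ) (L : Set (List Bool)) : Prop :=
  ∃ A : LinMachine, (∀ z, A.push z = []) ∧ (∃ s : ℕ, A.w = Polynomial.C s) ∧
    (∀ x, A.numReads x ^ k ≤ x.length) ∧
    (∀ x ∈ L, 2 ^ A.stages x ≤ 2 * A.acc x) ∧ (∀ x, x ∉ L → A.acc x = 0)

end Pool.Agent.Helper78.LM
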