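import Pool.Agent.Helper51.ZP.Main
import Pool.Agent.Helper59.Bin
import Pool.Agent.Helper78.LM.Defs

/-!
# Machines with a stack and a linear memory: definitions used in the proofs

Guess runs: the answers at the reading stages are guessed; a path is a list of pairs
(coin, guessed answer), one pair for each stage. The control does not see the memory in a guess run.
-/

namespace Pool.Agent.Helper78.LM

open Pool.Agent.Helper81.CC Pool.Agent.Helper51.ZP Pool.Agent.Bin Matrix

/-! ### Guess runs -/

/-- the state, the stack and the last (guessed) answer -/
abbrev Ctl := ℕ × List ℕ × Bool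

/-- what the control sees -/
def cview (x : List Bool) (t : ℕ) (b : Bool) (c : Ctl) : View :=
  (x, t, c.1, c.2.1.headD 0, b, c.2.2)

section
variable (A : LinMachine) (x : List Bool)

/-- one stage of a guess run; `p` is the pair of the coin and the guessed answer -/
def cstep (t : ℕ) (c : Ctl) (p : Bool × Bool) : Ctl :=
  (A.next (cview x t p.1 c), A.push (cview x t p.1 c) ++ c.2.1.tail, p.2)

/-- the guess run is allowed (an answer `1` is guessed only at reading stages) and it ends in the
state `1` with an empty stack -/
def gacc : ℕ → Ctl → List (Bool × Bool) → Bool
  | _, c, [] => decide (c.1 = 1 ∧ c.2.1 = [])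
  | t, c, p :: ps => (!p.2 || A.reads (x, t)) && gacc (t + 1) (cstep A x t c p) ps

/-- the memory after a stage of a guess run -/
def gmem (t : ℕ) (c : Ctl) (v : Fin (A.dim x) → ZMod 2) (p : Bool × Bool) :
    Fin (A.dim x) → ZMod 2 :=
  A.mat x t *ᵥ v + toVec (A.dim x) (A.vec (cview x t p.1 c))

/-- the errors of the guesses: value of the linear form plus guessed answer -/
def errs : ℕ → Ctl → (Fin (A.dim x) → ZMod 2) → List (Bool × Bool) → List (ZMod 2)
  | _, _, _, [] => []
  | t, c, v, p :: ps =>
    (toVec (A.dim x) (A.form (x, t)) ⬝ᵥ gmem A x t c v p + b2z p.2) ::
      errs (t + 1) (cstep A x t c p) (gmem A x t c v p) ps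

/-- the start of the control -/
def c0 : Ctl := (0, [], false)

/-! ### The dual vectors -/

/-- the sum of `a` times the linear form of the stage `t` and of the vector `g` -/
def mid (t : ℕ) (a : Bool) (g : List Bool) : List Bool :=
  (List.range (A.dim x)).map fun i => xor (a && (A.form (x, t)).getD i false) (g.getD i false)

/-- the transposed matrix of the stage `t` applied to `h` -/
def bck (t : ℕ) (h : List Bool) : List Bool :=
  (List.range (A.dim x)).map fun j =>
    par ((List.range (A.dim x)).map fun i => h.getD i false && (A.row (x, t, i)).getD j false)

/-- the linear form of the memory before the stage `t` which gives the contribution of the memory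
to the sum of the errors with the coefficients `a` -/
def back : ℕ → List Bool → List Bool
  | _, [] => []
  | t, a :: as => bck A x t (mid A x t a (back (t + 1) as))

/-- the linear forms of the memory after each stage -/
def mids : ℕ → List Bool → List (List Bool)
  | _, [] => []
  | t, a :: as => mid A x t a (back A x (t + 1) as) :: mids (t + 1) as

/-- the sum of the errors with the coefficients `as`, for the memory `0`, computed by the control
with the linear forms `hs` -/
def pi : ℕ → Ctl → List (List Bool) → List Bool → List (Bool × Bool) → Bool
  | t, c, h :: hs, a :: as, p :: ps =>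
    xor (xor (par (List.zipWith (fun a b => a && b) h (A.vec (cview x t p.1 c)))) (a && p.2))
      (pi (t + 1) (cstep A x t c p) hs as ps)
  | _, _, _, _, _ => false

end

/-! ### Counting the runs of a pushdown machine given by tables -/

/-- a move: the next state and the symbols which replace the top symbol of the stack -/
abbrev Move := ℕ × List ℕ

/-- the table of a stage: the list of the moves for each state and each top symbol -/
abbrev Stage := List (List (List Move))

/-- the moves in the state `q` with the top symbol `s` -/
def moves (S : Stage) (q s : ℕ) : List Move := (S.getD q []).getD s []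

/-- the number of the runs which end in a state in `F` with an empty stack; the top symbol of the
empty stack is `0` -/
def cnt (F : List ℕ) : List Stage → ℕ → List ℕ → ℕ
  | [], q, st => if q ∈ F ∧ st = [] then 1 else 0
  | S :: l, q, st =>
    ((moves S q (st.headD 0)).map fun mv => cnt F l mv.1 (mv.2 ++ st.tail)).sum

/-- states and symbols are bounded -/
def Good (nQ nS : ℕ) (l : List Stage) : Prop :=
  ∀ S ∈ l, ∀ q s, ∀ mv ∈ moves S q s, mv.1 < nQ ∧ mv.2.length ≤ 2 ∧ ∀ a ∈ mv.2, a < nS

/-- the number of the runs of `k` stages which start in the state `q` with the stack `[s]` and for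
which the stack becomes empty exactly at the end, in the state `q'` -/
def pop (nQ : ℕ) : List Stage → ℕ → ℕ → ℕ → ℕ → ℕ
  | [], _, _, _, _ => 0
  | S :: l, q, s, k, q' => if k = 0 then 0 else
    ((moves S q s).map fun mv =>
      match mv.2 with
      | [] => if k = 1 ∧ mv.1 = q' then 1 else 0
      | [a] => pop nQ l mv.1 a (k - 1) q'
      | a :: b :: _ => ∑ k1 ∈ Finset.range k, ∑ q1 ∈ Finset.range nQ,
          pop nQ l mv.1 a k1 q1 * pop nQ (l.drop k1) q1 b (k - 1 - k1) q').sum
  termination_by l => l.length
  decreasing_by all_goals simp <;> omega

/-- the table of the stage `t` of the machine `A`: the states of the table are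
`4 q + 2 (parity) + (last answer)` -/
def stg (A : LinMachine) (x : List Bool) (t : ℕ) (h : List Bool) (a : Bool) : Stage :=
  (List.range (4 * A.w.eval x.length)).map fun Q => (List.range (A.w.eval x.length)).map fun s =>
    ((if A.reads (x, t) = true then [(false, false), (true, false), (false, true), (true, true)]
      else [(false, false), (true, false)]) : List (Bool × Bool)).map fun p =>
      (4 * A.next (x, t, Q / 4, s, p.1, decide (Q % 2 = 1)) +
        2 * (xor (xor (decide (Q / 2 % 2 = 1))
          (par (List.zipWith (fun a b => a && b) h
            (A.vec (x, t, Q / 4, s, p.1, decide (Q % 2 = 1)))))) (a && p.2)).toNat + p.2.toNat,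
        A.push (x, t, Q / 4, s, p.1, decide (Q % 2 = 1)))

/-- the tables of all stages, for the coefficients `a` of the errors -/
def inst (A : LinMachine) (x : List Bool) (a : List Bool) : List Stage :=
  (List.range (A.stages x)).map fun t =>
    stg A x t ((mids A x 0 a).getD t []) (a.getD t false)

/-! ### The simulation of a Turing machine -/

/-- The values `val` and `pred` describe, for the input `x` and the coins `r`, the computation of
`out` by `S` bits, each of which is a function of `c` bits with smaller numbers. -/
def Local (c S : ℕ) (pred : List Bool × ℕ × ℕ → ℕ) (val : List Bool × ℕ × List Bool → Bool)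
    (x r : List Bool) (out : Bool) : Prop :=
  r.length + 1 < S ∧ ∃ B : ℕ → Bool, B 0 = false ∧ (∀ j < r.length, B (j + 1) = r.getD j false) ∧
    (∀ j, r.length + 1 ≤ j → j < S → (∀ i < c, pred (x, j, i) < j) ∧
      B j = val (x, j, (List.range c).map fun i => B (pred (x, j, i)))) ∧
    B (S - 1) = out

end Pool.Agent.Helper78.LM
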