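import Pool.Agent.Helper78.LM.Main
import Pool.Agent.Helper61.LM.ACC
import Pool.Agent.Helper61.LM.HSA
import Pool.Agent.Helper55.LM.HSB
import Pool.Agent.Helper54.LM.LIN
import Pool.Agent.Helper58.LM.CNI
import Pool.Agent.Helper8.LM.PTI
import Pool.Agent.Helper77.LM.PDD
import Pool.Agent.Helper38.LM.PDA
import Pool.Agent.Helper5.LM.IPG
import Pool.Agent.Helper60.LM.TAB
import Pool.Agent.Helper51.LM.SMF
import Pool.Agent.Helper39.LM.RPS

/-!
# Machines with a stack and a linear memory: the main theorem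
-/

namespace Pool.Agent.Helper78.LM

open Pool.Agent.Helper81.CC Pool.Agent.Helper51.ZP

theorem main :
    (∀ (c : ℕ) (L : Set (List Bool)),
      InP L ↔ DecidedWithGap (fun n => c * Nat.log 2 n + c) L) ∧
    (∀ k : ℕ, 1 ≤ k →
      ((∀ L : Set (List Bool), InRP L → InRP Lᶜ → InP L) ↔
        ∀ L : Set (List Bool), InLin k L → InLin k Lᶜ → InP L)) :=
  main_of Pool.Agent.Helper61.LM.acc Pool.Agent.Helper61.LM.npv Pool.Agent.Helper61.LM.hsa
    Pool.Agent.Helper55.LM.hsb Pool.Agent.Helper54.LM.lin Pool.Agent.Helper58.LM.cni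
    Pool.Agent.Helper8.LM.pti Pool.Agent.Helper77.LM.pdd Pool.Agent.Helper38.LM.pda
    Pool.Agent.Helper5.LM.ipg Pool.Agent.Helper60.LM.tab Pool.Agent.Helper51.LM.smf
    Pool.Agent.Helper5.LM.pad Pool.Agent.Helper39.LM.rps

end Pool.Agent.Helper78.LM
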