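import Pool.Agent.Helper78.LM.Sim

/-!
# Machines with a stack and a linear memory: statements of the parts, with proofs in words

Each `...Stmt` is to be proved in its own file. Standing tools: the calculus `PolyTime`
(`Pool.Agent.Helper81.CompT` and following), binary numbers `BN` (`Pool.Agent.Helper59.Bin`),
`Pool.Agent.Helper51.ZP` (machines and the calculus: `Main`; the lists `vecs N` of all vectors of a
length `k` with `N ≤ 2 ^ k`, shift registers `lfsr`: `Lfsr`, `Alg`; the field tools `powGen_rec`:
`Hit`).
-/

namespace Pool.Agent.Helper78.LM

open Pool.Agent.Helper81.CC Pool.Agent.Helper51.ZP Pool.Agent.Bin Matrix Computability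

/-- **ACC.** The number of the accepting runs is the number of the accepted guess paths without
errors.

Proof. More generally, for each `n`, each `t` and each configuration `c = (q, st, v, o)`, the number
of the `ρ : Fin n → Bool` such that `A.run x t (List.ofFn ρ) c` is `some c'` with `c'.q = 1`,
`c'.st = []` equals the number of the `ps : Fin n → Bool × Bool` with
`gacc A x t (q, st, o) (List.ofFn ps) = true` and all `errs A x t (q, st, o) v (List.ofFn ps)` equal
to `0`. Induction on `n` (`Fin.consEquiv`, `Fin.cons`, `List.ofFn_succ`): for a fixed coin `b` there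
is exactly one guess `g` which is allowed and has error `0`, or none. With
`a = A.value x t b c = form ⬝ᵥ gmem ...` the error is `a + b2z g`; it is `0` iff
`g = decide (a = 1)`; this guess is allowed iff `a = 0` or the stage is a reading stage, which is the
condition in `A.step`, and the next configuration of `A.step` is then the one of
`cstep`, `gmem` with this guess `g = decide (a = 1)`. It is easiest to prove the bijection
`ρ ↦ ps` in the form: number of pairs = sum over `b` of [allowed] * (number for the rest). -/
def AccStmt : Prop := ∀ (A : LinMachine) (x : List Bool),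
  A.acc x = (Finset.univ.filter fun ps : Fin (A.stages x) → Bool × Bool =>
    gacc A x 0 c0 (List.ofFn ps) = true ∧ ∀ e ∈ errs A x 0 c0 0 (List.ofFn ps), e = 0).card

/-- **NPV.** The number of the allowed guess paths.

Proof. Induction on the number `n` of the stages: for each `t`, `c` the number of the
`ps : Fin n → Bool × Bool` with `gacc A x t c (List.ofFn ps) = true` is at most
`2 ^ n * 2 ^ #{i < n : A.reads (x, t + i)}`, because the first pair has `2` values if the stage `t`
is not a reading stage and `4` values otherwise. -/
def NpvStmt : Prop := ∀ (A : LinMachine) (x : List Bool),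
  (Finset.univ.filter fun ps : Fin (A.stages x) → Bool × Bool =>
    gacc A x 0 c0 (List.ofFn ps) = true).card ≤ 2 ^ (A.stages x + A.numReads x)

/-- the sign of an element of `F_2` -/
def sgnZ (z : ZMod 2) : ℤ := if z = 0 then 1 else -1

/-- the scalar product of the first `T` output bits of the shift register and of `e` -/
def lprod (c s : List Bool) (T : ℕ) (e : ℕ → ZMod 2) : ZMod 2 :=
  ∑ j ∈ Finset.range T, b2z ((lfsr c s T).getD j false) * e j

/-- **HSA.** The sum of the signs over all initial values of a shift register.

Proof. Let `vecs N` be the list of all vectors of length `k` (`vecs_spec`), `k ≥ 1` because `2 ≤ N`.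
This list has no duplicates: by `iter_vecs` its length is `2 ^ k`, and it contains exactly the
`2 ^ k` lists of length `k` (or: induction with `dbl`). For `c`, `s`, `s'` of length `k ≥ 1` the
output `lfsr c` of `zipWith xor s s'` is the `zipWith xor` of the outputs (induction on the number of
the steps; `stp` keeps the length and is additive, `par_eq`). Hence `s ↦ lprod c s T e` is additive.
For each `i`: if it is `0` for all `s`, the sum of the signs is the length of `vecs N`; otherwise
choose `s₀` with value `1`, and `s ↦ zipWith xor s s₀` is a bijection of the vectors of length `k`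
which changes the sign, so that the sum is `0`. Exchange the sums over `s` and `i`. -/
def HsaStmt : Prop := ∀ {ι : Type} (N T : ℕ) (I : Finset ι) (e : ι → ℕ → ZMod 2), 2 ≤ N →
  ∀ c ∈ vecs N,
    ((vecs N).map fun s => ∑ i ∈ I, sgnZ (lprod c s T (e i))).sum =
      ((vecs N).length : ℤ) * ((I.filter fun i => ∀ s ∈ vecs N, lprod c s T (e i) = 0).card : ℤ)

/-- **HSB.** For some feedback vector few nonzero vectors are orthogonal to all outputs.

Proof. Let `vecs N` be the list of all vectors of length `k ≥ 1`, `N ≤ 2 ^ k`, and let `F` be a field
with `2 ^ k` elements (`GaloisField 2 k`; see `exists_field`, `Alg`/`Main` for its use). For `α ∈ F`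
put `I_α = {i ∈ I : e i ≠ 0 on range T, ∑_{j < T} e i j α ^ j = 0}`. A nonzero polynomial of degree
`< T` has at most `T` roots, so `∑_α |I_α| ≤ T |I|`, and there is an `α` with
`2 ^ k |I_α| ≤ T |I|`, hence `N |I_α| ≤ T |I|`. Let `c` be the vector of the coefficients from
`powGen_rec` for this `α`, `c ∈ vecs N`. If `i` is in the set of the statement, then `i ∈ I_α`: for
each `φ` in the dual of `F`, the sequence `y j = φ (α ^ j)` satisfies the recurrence, so by
`lfsr_eq` the first `T` output bits for the initial values `s = (y 0, ..., y (k - 1))`,
`s ∈ vecs N`, are `y 0, ..., y (T - 1)`, and `0 = lprod c s T (e i) = φ (∑_j e i j α ^ j)`. So all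
`φ` vanish at `∑_j e i j α ^ j`, which is therefore `0`
(`Module.forall_dual_apply_eq_zero_iff`). -/
def HsbStmt : Prop := ∀ {ι : Type} (N T : ℕ) (I : Finset ι) (e : ι → ℕ → ZMod 2), 2 ≤ N →
  ∃ c ∈ vecs N, N * (I.filter fun i => (∃ j < T, e i j ≠ 0) ∧
    ∀ s ∈ vecs N, lprod c s T (e i) = 0).card ≤ T * I.card

/-- **LIN.** The sum of the errors with coefficients `a` is computed by the control.

Proof. Induction on `ps` (with `a`): with `v' = gmem A x t c v p`, `g = back A x (t + 1) as` and
`h = mid A x t a g` one has `toVec h = b2z a • toVec (form) + toVec g` and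
`toVec (bck A x t h) ⬝ᵥ v = toVec h ⬝ᵥ (A.mat x t *ᵥ v)` (transpose; `par_eq`, `Matrix.dotProduct_mulVec`
or `Finset.sum_comm`), and `b2z (par (zipWith and h u)) = toVec h ⬝ᵥ toVec u` for `h` of length `m`
(the list `u` may be shorter or longer). So
`a (form ⬝ᵥ v' + p.2) + (back (t+1) as ⬝ᵥ v' + pi ...) = toVec h ⬝ᵥ v' + a p.2 + pi ... `
and `toVec h ⬝ᵥ v' = toVec h ⬝ᵥ (mat *ᵥ v) + toVec h ⬝ᵥ toVec (vec ..)`. -/
def LinStmt : Prop := ∀ (A : LinMachine) (x : List Bool) (t : ℕ) (c : Ctl)
  (v : Fin (A.dim x) → ZMod 2) (a : List Bool) (ps : List (Bool × Bool)), a.length = ps.length →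
    ∑ j ∈ Finset.range ps.length, b2z (a.getD j false) * (errs A x t c v ps).getD j 0 =
      toVec (A.dim x) (back A x t a) ⬝ᵥ v + b2z (pi A x t c (mids A x t a) a ps)

/-- **CNI.** The table machine counts the accepted guess paths with a given value of `pi`.

Proof. `Good`: a move of `stg` has the state `4 next + 2 (0 or 1) + (0 or 1) < 4 w` and the symbols
pushed by `A` (`next_lt`, `push_lt`, `push_le`); outside of the range of the table there are no
moves. Counting: for each `t`, each control configuration `c = (q, st, o)` with `q < w` and all
symbols of `st` less than `w`, each bit `β` and each list `a` the value of `cnt F` for the tables of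
the stages `t, ..., T - 1`, the state `4 q + 2 β + o` and the stack `st` is the number of the
`ps : Fin (T - t) → Bool × Bool` with `gacc A x t c ps` and `pi ... ps = β xor (0 or 1)`; induction
on the number of the remaining stages. For `F = [4, 5]` the final states are `q = 1`, parity `0`, for
`F = [6, 7]` they are `q = 1`, parity `1`. (`w > 0` by `next_lt`. Write
`inst A x a = (List.range T).map ...` as a list built from the stage `t` on, with `hs`, `as` the tails
of `mids A x 0 a` and of `a`; note `mids A x 0 a = mid ... :: mids A x 1 as`.) -/
def CniStmt : Prop := ∀ (A : LinMachine) (x a : List Bool), a.length = A.stages x →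
  Good (4 * A.w.eval x.length) (A.w.eval x.length) (inst A x a) ∧
  cnt [4, 5] (inst A x a) 0 [] =
    (Finset.univ.filter fun ps : Fin (A.stages x) → Bool × Bool =>
      gacc A x 0 c0 (List.ofFn ps) = true ∧
        pi A x 0 c0 (mids A x 0 a) a (List.ofFn ps) = false).card ∧
  cnt [6, 7] (inst A x a) 0 [] =
    (Finset.univ.filter fun ps : Fin (A.stages x) → Bool × Bool =>
      gacc A x 0 c0 (List.ofFn ps) = true ∧
        pi A x 0 c0 (mids A x 0 a) a (List.ofFn ps) = true).card

/-- **PTI.** The tables can be computed in polynomial time.

Proof. First the fields of `A` are `PolyTime` (from `PolyTimeComputable (encOf _) (encOf _)`: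
`scomp_of_polyTimeComputable`, compare `PT_of_machine`). The list `mids A x 0 a` is computed from
the right: iterate over `t = T' - 1, ..., 0` (`T' = a.length`) the map
`(L, g) ↦ (mid A x t (a_t) g :: L, bck A x t (mid ...))`, starting with `([], [])`
(`PolyTime.iterate_bd` or `PolyTime.foldl_bd` with the bound: `g` is a list of at most `m` bits and
`L` a list of at most `T'` such lists, `sz_bools`, `sz_list_le` in `ZP.Alg`; `A.dim x` is a
polynomial in the length of `x`, `PT_eval`). The rest is `PolyTime.list_map` and `fun_prop`. -/
def PtiStmt : Prop := ∀ A : LinMachine, PolyTime (fun z : List Bool × List Bool => inst A z.1 z.2)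

/-- **PDD.** Decomposition of the runs at the moment where the top symbol has been removed.

Proof. Strong induction on the length of `l`, for all `q`, `s`, `st`. For `l = []` both sides are
`0`. For `S :: l'` the left side is the sum over the moves `mv ∈ moves S q s` of
`cnt F l' mv.1 (mv.2 ++ st)`. If `mv.2 = []`, this is the contribution of `mv` to the term `k = 1`,
`q1 = mv.1` of the right side (here `mv.1 < nQ` is used). If `mv.2 = [a]`, use the induction
hypothesis for `l'`, `a`, `st` and shift `k` by `1`. If `mv.2 = [a, b]`, use the induction hypothesis
for `l'`, `a`, `b :: st` and then for `l'.drop k1`, `b`, `st`, and collect the terms with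
`k = 1 + k1 + k2` (`pop nQ l q s k q' = 0` for `k > l.length`, and `pop ... 0 .. = 0`;
`List.drop_drop`). The values `k1 = l'.length`, where `l'.drop k1 = []`, are harmless:
`pop nQ [] = 0` and `cnt F [] q (b :: st) = 0`. -/
def PddStmt : Prop := ∀ (F : List ℕ) (nQ nS : ℕ) (l : List Stage), Good nQ nS l →
  ∀ (q s : ℕ) (st : List ℕ), cnt F l q (s :: st) =
    ∑ k ∈ Finset.range (l.length + 1), ∑ q1 ∈ Finset.range nQ,
      pop nQ l q s k q1 * cnt F (l.drop k) q1 st

/-- **PDA.** The number of the runs of a pushdown machine given by tables is computed in polynomial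
time.

Proof. Dynamic programming from the last stage to the first: for a suffix `l'` of `l` the table of
`l'` is the pair of the list of the binary numbers `pop nQ l' q s k q'` (`q, q' < nQ`, `s < nS`,
`k ≤ l.length`) as a nested list (or as a list over one combined index) and of the list of the
numbers `cnt F l' q []` (`q < nQ`). The state of the iteration is the list `D` of the tables of all
suffixes of the current suffix, so that the table of `l'.drop j` is the `j`-th entry of `D`. The
table of `S :: l'` is computed from `D` with the recursion for `pop` (unfold its definition) and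
`cnt F (S :: l') q [] = ∑_{mv ∈ moves S q 0} cnt F l' mv.1 mv.2`, where `cnt F l' q' [a]` and
`cnt F l' q' [a, b]` are given by `PddStmt` (applied once and twice) in terms of `pop` and of the
numbers `cnt F (l'.drop k) q1 []`. All sums are sums of lists of `BN` (`BN.sum`, `List.range`,
`flatMap`/`map`), so `fun_prop` proves that one step is in `PolyTime`. Sizes: if every stage has at
most `M` moves for each `q`, `s` (`M ≤ sz l`), then `pop ≤ M ^ length` and `cnt ≤ M ^ length`
(with `pop nQ l q s k q' ≤` number of the move sequences of length `k`; or use
`pop * cnt ≤ cnt`-type bounds from `PddStmt` with `F = range nQ`), so the binary numbers have at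
most `l.length * sz l` digits (`sz_le_of_lt`), and `D` has size polynomial in the input:
`PolyTime.iterate_bd`/`foldl_bd`. To have the bound also for inputs which are not `Good`, one may
truncate: replace the moves of each table by those with `mv.1 < nQ`, pushes of length `≤ 2` and
symbols `< nS`, or bound the entries directly by induction. -/
def PdaStmt : Prop := PddStmt → ∃ G : List ℕ × List Stage × ℕ × ℕ → BN, PolyTime G ∧
  ∀ (F : List ℕ) (l : List Stage) (nQ nS : ℕ), 0 < nQ → 0 < nS → Good nQ nS l →
    (G (F, l, nQ, nS)).val = cnt F l 0 []

/-- **AS1.** Assembly of the first part. -/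
def As1Stmt : Prop := ∀ (c : ℕ) (L : Set (List Bool)),
  DecidedWithGap (fun n => c * Nat.log 2 n + c) L → InP L

/-- **IPG.** A language in `P` is decided by a machine without reading stages.

Proof. One stage; `next z = 1` if `f z.1` and `0` otherwise, where `f` decides `L`
(`PT_of_inP`), no push, no vectors, `w = 2`, `m = 0`, `T = 1`, `u = 1`, `g = 0`. Both coin sequences
accept if `x ∈ L`, none otherwise; `A.acc x = 2` or `0`. (From `PolyTime` to
`PolyTimeComputable (encOf _) (encOf _)`: `h.scomp.computable`, see `PolyTime.computable`.) -/
def IpgStmt : Prop := ∀ (R : ℕ → ℕ) (L : Set (List Bool)), InP L → DecidedWithGap R L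

/-- **TAB.** The tableau of a Turing machine as a sequence of local functions.

Proof. As in the proof of `SAT_hardS` (`Pool.Agent.Helper83.CookLevin`): take `M = codeM ...` with
`nQ = ql.length`, `nK = kl.length`, `nG = gl.length`, the initial configuration
`C0 = initC q0 (kc kl tm.k₀) ((pairEnc x r).map (bc cf ct))`, the number of steps
`T' = D * h.time.eval (2 |x| + 1 + m |x|)` and the height `N = 2 |x| + 1 + m |x| + T'`
(`iter_wf`: cells above `N` are blank up to time `T'`). At time `T'` the cell `0` of the stack
`kc kl tm.k₁` contains the symbol `acc` iff `f (x, r) = true`.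
Numbering of the bits: `B 0 = false`, `B (j + 1) = r_j` for `j < m |x|`, then for the times
`t = 0, ..., T'` a block of `W = nQ + nK (N + 1) (nG + 1)` bits: the bits `(q = C_t.1)` for `q < nQ`,
and the bits `(s = C_t.2 k i)` for `k < nK`, `i ≤ N`, `s ≤ nG`; one more bit for the output, a copy of
the bit `(acc = C_{T'}.2 k₁ 0)`. So `S = m + 1 + (T' + 1) W + 1`, a polynomial in `|x|`
(`Polynomial.comp`).
Time `0`: each bit is a function of `x` and of at most one bit of `r`: the letter number `i` of
`pairEnc x r` is known for `i ≤ 2 |x|` and is `r_(i - 2|x| - 1)` for `2 |x| < i < 2 |x| + 1 + m |x|`.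
Time `t + 1`: the bits depend on the `nQ` state bits of time `t`, on the bits of the cells `0` of all
stacks at time `t`, and on the three bits `(s = C_t.2 k j)`, `j = i - 1, i, i + 1`, by the definition
of `SM.step` and `SM.upd` (for the state bits of the new configuration the last three arguments are
not needed; if `i = N` the cell `i + 1` is blank). So `c = nQ + nK (nG + 1) + 3`; unused arguments
are set to `0`, and `val` first finds the state (the index of the first `true` among the first `nQ`
arguments) and the top symbol of the active stack. Take `B j` for the real run as values.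
`pred` and `val` are in `PolyTime` by `fun_prop`: arithmetic with division and remainder of unary
numbers, `PT_act`, `PT_nxt`, `PT_op`, `PT_eval`, `List.findIdx`/`idxOf`-type functions can be replaced
by sums over constant ranges. -/
def TabStmt : Prop := ∀ (f : List Bool × List Bool → Bool) (m : Polynomial ℕ),
  PolyTimeComputable (fun z : List Bool × List Bool => pairEnc z.1 z.2) encodeBool f →
  ∃ (c : ℕ) (S : Polynomial ℕ) (pred : List Bool × ℕ × ℕ → ℕ)
    (val : List Bool × ℕ × List Bool → Bool), PolyTime pred ∧ PolyTime val ∧
    ∀ x r : List Bool, r.length = m.eval x.length →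
      Local c (S.eval x.length) pred val x r (f (x, r))

/-- **SMF.** The functions of the simulating machine are in `PolyTime`.

Proof. Unfold and `fun_prop`; `digits c n` is a map over the constant list of the numbers
`2 ^ (c - 1 - i)`; `PT_eval` for the polynomials. -/
def SmfStmt : Prop := ∀ (c : ℕ) (m S : Polynomial ℕ) (pred : List Bool × ℕ × ℕ → ℕ)
  (val : List Bool × ℕ × List Bool → Bool) (ok : List Bool → Bool) (arg : List Bool → List Bool)
  (d : Bool), PolyTime pred → PolyTime val → PolyTime ok → PolyTime arg →
  PolyTimeComputable (encOf View) (encOf ℕ) (simNext c m S val ok arg d) ∧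
  PolyTimeComputable (encOf View) (encOf (List ℕ)) (fun _ => []) ∧
  PolyTimeComputable (encOf View) (encOf (List Bool)) (simVec c m S val ok arg) ∧
  PolyTimeComputable (encOf (List Bool × ℕ × ℕ)) (encOf (List Bool)) simRow ∧
  PolyTimeComputable (encOf (List Bool × ℕ)) (encOf (List Bool)) (simForm c m S pred ok arg) ∧
  PolyTimeComputable (encOf (List Bool × ℕ)) (encOf Bool) (simReads c m S ok arg)

/-- **SMR.** The runs of the simulating machine.

Proof. `A = simM ...`. `A.mat y t` is the identity, `A.push = []`, so the stack is always empty; at a
stage which is not a reading stage the form is `0`, so no run fails.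
If `ok y = false` each stage goes to the state `d.toNat` and there is at least one stage.
Let `ok y = true`, `x = arg y`, `n = m |x|`, `S = S |x|`, `B` the bits of `Local`; the dimension
`S |y|` is at least `S` (`|x| ≤ |y|`, evaluation of a polynomial over `ℕ` is monotone). After `t ≤ n`
stages the memory is `B` on the coordinates `≤ t` and `0` on the others. For
`j = n + 1 + u`, `j < S`, `i ≤ c`: before the stage `n + u (c + 1) + i` the memory is `B` on the
coordinates `< j` and `0` on the others, and `cur` (for `i ≥ 1`: `2 q + o`) is the number whose binary
digits are the bits `B (pred (x, j, i'))`, `i' < i`, the first one being the most significant; it is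
`< 2 ^ i`, so the reduction mod `2 ^ (c + 1) + 2` changes nothing. At a reading stage the answer is
the coordinate `pred (x, j, i) < j` of the memory. At the stage `i = c` the control has all
arguments, `gVal` is `B j`, and `B j` is written to the coordinate `j`. After the last bit
`j = S - 1` the state is `1` iff `B (S - 1) = true`, and it does not change any more; there are
`T |y| ≥ n + S (c + 1) + 1` stages. -/
def SmrStmt : Prop := ∀ (c : ℕ) (m S : Polynomial ℕ) (pred : List Bool × ℕ × ℕ → ℕ)
  (val : List Bool × ℕ × List Bool → Bool) (ok : List Bool → Bool) (arg : List Bool → List Bool)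
  (d : Bool) h1 h2 h3 h4 h5 h6 (y ρ : List Bool),
  ρ.length = (simM c m S pred val ok arg d h1 h2 h3 h4 h5 h6).stages y →
  (ok y = false → ((simM c m S pred val ok arg d h1 h2 h3 h4 h5 h6).Accepts y ρ ↔ d = true)) ∧
  (ok y = true → (arg y).length ≤ y.length → ∀ out : Bool,
    Local c (S.eval (arg y).length) pred val (arg y) (ρ.take (m.eval (arg y).length)) out →
    ((simM c m S pred val ok arg d h1 h2 h3 h4 h5 h6).Accepts y ρ ↔ out = true))

/-- **SIM.** Every language in `RP`, embedded into a language with sufficiently long words, is
decided by a machine with few reading stages.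

Proof. Let `A1` be the randomized algorithm, `c`, `S`, `pred`, `val` from `TabStmt` for `A1.M`,
`A1.m`, and `T = m + S (c + 1) + 1`. For `ok`, `arg`, `d` take `A = simM ...` (`SmfStmt`).
Reading stages `t` satisfy `ok y` and `t < T |arg y|`, so there are at most `T |arg y|` of them, and
none if `ok y = false`. Acceptance is given by `SmrStmt`: for `ok y = true` it depends only on the
first `n = m |arg y|` coins, so `A.acc y = 2 ^ (T |y| - n) #{r : A1.M (arg y, r) = true}`; for
`ok y = false` all or no runs accept. -/
def SimStmt : Prop := TabStmt → SmfStmt → SmrStmt → ∀ L : Set (List Bool), InRP L →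
  ∃ T : Polynomial ℕ, ∀ (k : ℕ) (ok : List Bool → Bool) (arg : List Bool → List Bool) (d : Bool),
    1 ≤ k → PolyTime ok → PolyTime arg → (∀ y, (arg y).length ≤ y.length) →
    (∀ y, ok y = true → (T.eval (arg y).length) ^ k ≤ y.length) →
    InLin k {y | if ok y = true then arg y ∈ L else d = true}

/-- **PAD.** The padding argument.

Proof. Let `T1`, `T2` be the polynomials from the hypothesis for `L` and `Lᶜ`, `P = (T1 + T2) ^ k`.
Put `ok y = decide (y = pairEnc (unpairL y).1 (replicate (P |(unpairL y).1|) false))` and
`arg y = if ok y then (unpairL y).1 else []`, so `|arg y| ≤ |y|` and, if `ok y`,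
`T1 |arg y| ^ k ≤ P |arg y| ≤ |y|`. The language `L' = {y | if ok y then arg y ∈ L else False}` and
its complement `{y | if ok y then arg y ∈ Lᶜ else True}` are in `InLin k`, so `L'` is in `P`, and
`x ∈ L ↔ pairEnc x (replicate (P |x|) false) ∈ L'` (`unpairL_pairEnc`), a reduction in `PolyTime`
(`PT_of_inP`, `inP_of_PT`). -/
def PadStmt : Prop := (∀ L : Set (List Bool), InRP L →
  ∃ T : Polynomial ℕ, ∀ (k : ℕ) (ok : List Bool → Bool) (arg : List Bool → List Bool) (d : Bool),
    1 ≤ k → PolyTime ok → PolyTime arg → (∀ y, (arg y).length ≤ y.length) →
    (∀ y, ok y = true → (T.eval (arg y).length) ^ k ≤ y.length) →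
    InLin k {y | if ok y = true then arg y ∈ L else d = true}) →
  ∀ k : ℕ, 1 ≤ k → (∀ L : Set (List Bool), InLin k L → InLin k Lᶜ → InP L) →
    ∀ L : Set (List Bool), InRP L → InRP Lᶜ → InP L

/-- **RPS.** The machines without stack can be simulated by randomized algorithms.

Proof. The stack is always empty, so a configuration is `(q, v, o)` with `v` a list of
`m = A.dim x` bits. One stage is in `PolyTime`: the new memory is the list over `i < m` of
`xor (par (zipWith and (row (x, t, i)) v)) ((vec ..).getD i false)` (with the row cut or filled up to
length `m`), the value of the form is a `par` as well. Fold over the coins, with an option for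
failure (`PolyTime.foldl_bd`; the state is less than `w |x|`, the memory has `m |x|` bits, the number
of the stage is the number of the coins used so far). The machine accepts `r` iff the run
with the coins `r` ends in the state `1`; `Machine.m = A.T`, and the numbers agree exactly. -/
def RpsStmt : Prop := ∀ (k : ℕ) (L : Set (List Bool)), InLin k L → InRP L

end Pool.Agent.Helper78.LM
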