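import Pool.Agent.Helper78.LM.Smr

/-!
# Every language in `RP` is decided by a machine with few reading stages, after padding
-/

namespace Pool.Agent.Helper78.LM

open Pool.Agent.Helper81.CC Pool.Agent.Helper51.ZP Pool.Agent.Bin Matrix Computability

theorem card_take (T n : ℕ) (h : n ≤ T) (Q : List Bool → Prop) :
    Nat.card {ρ : Fin T → Bool // Q ((List.ofFn ρ).take n)} =
      2 ^ (T - n) * Nat.card {r : Fin n → Bool // Q (List.ofFn r)} := by
  obtain ⟨k, rfl⟩ : ∃ k, T = n + k := ⟨T - n, by omega⟩
  have e1 : {p : (Fin n → Bool) × (Fin k → Bool) // Q (List.ofFn p.1)} ≃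
      {ρ : Fin (n + k) → Bool // Q ((List.ofFn ρ).take n)} := by
    refine Equiv.subtypeEquiv (Fin.appendEquiv n k) ?_
    rintro ⟨a, b⟩
    have : (List.ofFn (Fin.appendEquiv n k (a, b))).take n = List.ofFn a := by
      show (List.ofFn (Fin.append a b)).take n = List.ofFn a
      rw [List.ofFn_fin_append, List.take_append_of_le_length (by simp)]
      rw [List.take_of_length_le (by simp)]
    rw [this]
  rw [← Nat.card_congr e1, Nat.card_congr (Equiv.prodSubtypeFstEquivSubtypeProd
    (p := fun a : Fin n → Bool => Q (List.ofFn a))), Nat.card_prod, Nat.add_sub_cancel_left,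
    mul_comm]
  congr 1
  simp

theorem length_filter_range_le (m T : ℕ) (p : ℕ → Bool) (h : ∀ t, p t = true → t < T) :
    ((List.range m).filter p).length ≤ T := by
  have h1 : ((List.range m).filter p).Nodup := List.nodup_range.filter _
  have h2 : ((List.range m).filter p) ⊆ List.range T := by
    intro t ht
    rw [List.mem_filter] at ht
    exact List.mem_range.2 (h t ht.2)
  have := (h1.subperm h2).length_le
  simpa using this

theorem sim : SimStmt := by
  intro htab hsmf hsmr L hL
  obtain ⟨A1, hyes, hno⟩ := hL
  obtain ⟨c, S, pred, val, hpred, hval, hloc⟩ := htab A1.M A1.m A1.poly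
  refine ⟨A1.m + S * Polynomial.C (c + 1) + 1, ?_⟩
  intro k ok arg d hk hok harg hlen hpad
  obtain ⟨h1, h2, h3, h4, h5, h6⟩ := hsmf c A1.m S pred val ok arg d hpred hval hok harg
  set A := simM c A1.m S pred val ok arg d h1 h2 h3 h4 h5 h6 with hA
  have hTe : ∀ n : ℕ, (A1.m + S * Polynomial.C (c + 1) + 1).eval n =
      A1.m.eval n + S.eval n * (c + 1) + 1 := by
    intro n
    simp
  have hst : ∀ y, A.stages y = A1.m.eval y.length + S.eval y.length * (c + 1) + 1 := by
    intro y
    rw [LinMachine.stages, hA, simM]
    exact hTe _
  -- acceptance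
  have hacc_ok : ∀ y, ok y = true → A.acc y =
      2 ^ (A.stages y - A1.m.eval (arg y).length) *
        Nat.card {r : Fin (A1.m.eval (arg y).length) → Bool //
          A1.M (arg y, List.ofFn r) = true} := by
    intro y hy
    have hle : A1.m.eval (arg y).length ≤ A.stages y := by
      rw [hst y]
      have := eval_mono A1.m (hlen y)
      omega
    rw [LinMachine.acc, ← card_take (A.stages y) (A1.m.eval (arg y).length) hle
      (fun r => A1.M (arg y, r) = true)]
    refine Nat.card_congr (Equiv.subtypeEquivRight fun ρ => ?_)
    have hρ : (List.ofFn ρ).length = A.stages y := by simp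
    refine (hsmr c A1.m S pred val ok arg d h1 h2 h3 h4 h5 h6 y (List.ofFn ρ) hρ).2 hy
      (hlen y) _ ?_
    refine hloc _ _ ?_
    rw [List.length_take, hρ]
    omega
  have hacc_no : ∀ y, ok y = false → ∀ ρ : Fin (A.stages y) → Bool,
      (A.Accepts y (List.ofFn ρ) ↔ d = true) := by
    intro y hy ρ
    have hρ : (List.ofFn ρ).length = A.stages y := by simp
    exact (hsmr c A1.m S pred val ok arg d h1 h2 h3 h4 h5 h6 y (List.ofFn ρ) hρ).1 hy
  refine ⟨A, fun _ => rfl, ⟨_, rfl⟩, fun y => ?_, fun y hy => ?_, fun y hy => ?_⟩
  · -- the number of reading stages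
    rcases hoky : ok y with _ | _
    · have : A.numReads y = 0 := by
        rw [LinMachine.numReads]
        have hr : ∀ t, A.reads (y, t) = false := fun t => by
          show simReads c A1.m S ok arg (y, t) = false
          simp [simReads, isGate, hoky]
        simp [hr]
      rw [this, Nat.zero_pow (by omega)]
      exact Nat.zero_le _
    · refine le_trans (Nat.pow_le_pow_left ?_ k) (hpad y hoky)
      rw [LinMachine.numReads]
      refine length_filter_range_le _ _ _ fun t ht => ?_
      rw [hTe]
      have ht' : simReads c A1.m S ok arg (y, t) = true := ht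
      simp only [simReads, isGate, Bool.and_eq_true, decide_eq_true_eq] at ht'
      obtain ⟨⟨-, h7, h8⟩, -⟩ := ht'
      rw [gNum] at h8
      simp only [nCoins] at h7 h8
      have h9 : (t - A1.m.eval (arg y).length) / (c + 1) < S.eval (arg y).length := by omega
      have h10 := (Nat.div_lt_iff_lt_mul (by omega)).1 h9
      omega
  · -- words in the language
    rcases hoky : ok y with _ | _
    · have hd : d = true := by
        have : (if ok y = true then arg y ∈ L else d = true) := hy
        rw [if_neg (by simp [hoky])] at this
        exact this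
      have : A.acc y = 2 ^ A.stages y := by
        rw [LinMachine.acc, Nat.card_congr (Equiv.subtypeUnivEquiv
          (fun ρ => (hacc_no y hoky ρ).2 hd))]
        simp
      rw [this]
      omega
    · have hin : arg y ∈ L := by
        have : (if ok y = true then arg y ∈ L else d = true) := hy
        rwa [if_pos hoky] at this
      rw [hacc_ok y hoky]
      have h7 : 2 ^ A1.m.eval (arg y).length ≤ 2 * Nat.card
          {r : Fin (A1.m.eval (arg y).length) → Bool // A1.M (arg y, List.ofFn r) = true} :=
        hyes _ hin
      have hle : A1.m.eval (arg y).length ≤ A.stages y := by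
        rw [hst y]
        have := eval_mono A1.m (hlen y)
        omega
      calc 2 ^ A.stages y = 2 ^ (A.stages y - A1.m.eval (arg y).length) *
            2 ^ A1.m.eval (arg y).length := by
              rw [← pow_add, Nat.sub_add_cancel hle]
        _ ≤ 2 ^ (A.stages y - A1.m.eval (arg y).length) * (2 * Nat.card
          {r : Fin (A1.m.eval (arg y).length) → Bool // A1.M (arg y, List.ofFn r) = true}) :=
              Nat.mul_le_mul_left _ h7
        _ = _ := by ring
  · -- words not in the language
    rcases hoky : ok y with _ | _
    · have hd : ¬ d = true := by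
        intro hd
        apply hy
        show (if ok y = true then arg y ∈ L else d = true)
        rw [if_neg (by simp [hoky])]
        exact hd
      rw [LinMachine.acc, Nat.card_eq_zero]
      left
      exact ⟨fun ρ => hd ((hacc_no y hoky ρ.1).1 ρ.2)⟩
    · have hin : arg y ∉ L := by
        intro hd
        apply hy
        show (if ok y = true then arg y ∈ L else d = true)
        rw [if_pos hoky]
        exact hd
      rw [hacc_ok y hoky]
      have : Nat.card {r : Fin (A1.m.eval (arg y).length) → Bool //
          A1.M (arg y, List.ofFn r) = true} = 0 := by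
        rw [Nat.card_eq_zero]
        left
        refine ⟨fun r => ?_⟩
        have h7 := hno _ hin r.1
        exact Bool.false_ne_true (h7.symm.trans r.2)
      rw [this, mul_zero]

end Pool.Agent.Helper78.LM
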