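import Pool.Agent.Helper78.LM.As1
import Pool.Agent.Helper78.LM.SimA

/-!
# Machines with a stack and a linear memory: the main theorem, from its parts
-/

namespace Pool.Agent.Helper78.LM

open Pool.Agent.Helper81.CC Pool.Agent.Helper51.ZP

theorem main_of (hacc : AccStmt) (hnpv : NpvStmt) (hhsa : HsaStmt) (hhsb : HsbStmt)
    (hlin : LinStmt) (hcni : CniStmt) (hpti : PtiStmt) (hpdd : PddStmt) (hpda : PdaStmt)
    (hipg : IpgStmt) (htab : TabStmt) (hsmf : SmfStmt) (hpad : PadStmt) (hrps : RpsStmt) :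
    (∀ (c : ℕ) (L : Set (List Bool)),
      InP L ↔ DecidedWithGap (fun n => c * Nat.log 2 n + c) L) ∧
    (∀ k : ℕ, 1 ≤ k →
      ((∀ L : Set (List Bool), InRP L → InRP Lᶜ → InP L) ↔
        ∀ L : Set (List Bool), InLin k L → InLin k Lᶜ → InP L)) :=
  ⟨fun c L => ⟨hipg _ L, as1 hacc hnpv hhsa hhsb hlin hcni hpti hpdd hpda c L⟩,
    fun k hk => ⟨fun h L h1 h2 => h L (hrps k L h1) (hrps k _ h2),
      fun h => hpad (sim htab hsmf smr) k hk h⟩⟩

end Pool.Agent.Helper78.LM
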