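import Pool.Agent.Helper78.LM.Base

/-!
# The machine which simulates a Turing machine: definitions
-/

namespace Pool.Agent.Helper78.LM

open Pool.Agent.Helper81.CC Pool.Agent.Helper51.ZP Pool.Agent.Bin Matrix

/-- the digits of `n` (with `c` digits, the most significant digit first) -/
def digits (c n : ℕ) : List Bool :=
  ((List.range c).map fun i => 2 ^ (c - 1 - i)).map fun d => decide (n / d % 2 = 1)

/-- the unit vector with number `j` -/
def unitV (j : ℕ) : List Bool := List.replicate j false ++ [true]

section
variable (c : ℕ) (m S : Polynomial ℕ) (pred : List Bool × ℕ × ℕ → ℕ)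
  (val : List Bool × ℕ × List Bool → Bool) (ok : List Bool → Bool)
  (arg : List Bool → List Bool) (d : Bool)

/-- the number of the coins of the simulated machine on the input `y` -/
def nCoins (y : List Bool) : ℕ := m.eval (arg y).length

/-- the number of the bit to which the stage `t` belongs, for `t ≥ nCoins y` -/
def gNum (y : List Bool) (t : ℕ) : ℕ :=
  nCoins m arg y + 1 + (t - nCoins m arg y) / (c + 1)

/-- the number of the stage `t` among the stages that belong to the same bit -/
def iNum (y : List Bool) (t : ℕ) : ℕ := (t - nCoins m arg y) % (c + 1)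

/-- the stage `t` belongs to a bit -/
def isGate (y : List Bool) (t : ℕ) : Bool :=
  ok y && (decide (nCoins m arg y ≤ t) && decide (gNum c m arg y t < S.eval (arg y).length))

/-- the number coded by the answers so far -/
def cur (z : View) : ℕ :=
  if iNum c m arg z.1 z.2.1 = 0 then 0 else 2 * z.2.2.1 + z.2.2.2.2.2.toNat

/-- the value of the bit, if all arguments have been read -/
def gVal (z : View) : Bool :=
  val (arg z.1, gNum c m arg z.1 z.2.1, digits c (cur c m arg z))

/-- the next state -/
def simNext (z : View) : ℕ :=
  (if ok z.1 = false then d.toNat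
    else if z.2.1 < nCoins m arg z.1 then 0
    else if isGate c m S ok arg z.1 z.2.1 = true then
      (if iNum c m arg z.1 z.2.1 = c then (gVal c m val arg z).toNat else cur c m arg z)
    else z.2.2.1) % (2 ^ (c + 1) + 2)

/-- the vector added to the memory -/
def simVec (z : View) : List Bool :=
  if ok z.1 = true ∧ z.2.1 < nCoins m arg z.1 then
    (if z.2.2.2.2.1 = true then unitV (z.2.1 + 1) else [])
  else if isGate c m S ok arg z.1 z.2.1 = true ∧ iNum c m arg z.1 z.2.1 = c ∧
      gVal c m val arg z = true then unitV (gNum c m arg z.1 z.2.1)
  else []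

/-- the reading stages -/
def simReads (z : List Bool × ℕ) : Bool :=
  isGate c m S ok arg z.1 z.2 && decide (iNum c m arg z.1 z.2 < c)

/-- the linear forms -/
def simForm (z : List Bool × ℕ) : List Bool :=
  if simReads c m S ok arg z = true then
    unitV (pred (arg z.1, gNum c m arg z.1 z.2, iNum c m arg z.1 z.2))
  else []

/-- the identity matrix -/
def simRow (z : List Bool × ℕ × ℕ) : List Bool := unitV z.2.2

/-- the simulating machine -/
noncomputable def simM
    (h1 : PolyTimeComputable (encOf View) (encOf ℕ) (simNext c m S val ok arg d))
    (h2 : PolyTimeComputable (encOf View) (encOf (List ℕ)) (fun _ => []))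
    (h3 : PolyTimeComputable (encOf View) (encOf (List Bool)) (simVec c m S val ok arg))
    (h4 : PolyTimeComputable (encOf (List Bool × ℕ × ℕ)) (encOf (List Bool)) simRow)
    (h5 : PolyTimeComputable (encOf (List Bool × ℕ)) (encOf (List Bool))
      (simForm c m S pred ok arg))
    (h6 : PolyTimeComputable (encOf (List Bool × ℕ)) (encOf Bool) (simReads c m S ok arg)) :
    LinMachine where
  T := m + S * Polynomial.C (c + 1) + 1
  m := S
  w := Polynomial.C (2 ^ (c + 1) + 2)
  next := simNext c m S val ok arg d
  push _ := []
  vec := simVec c m S val ok arg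
  row := simRow
  form := simForm c m S pred ok arg
  reads := simReads c m S ok arg
  next_poly := h1
  push_poly := h2
  vec_poly := h3
  row_poly := h4
  form_poly := h5
  reads_poly := h6
  next_lt z := by
    simp only [Polynomial.eval_C]
    exact Nat.mod_lt _ (by positivity)
  push_lt z s hs := by simp at hs
  push_le z := by simp

end

end Pool.Agent.Helper78.LM
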