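import Pool.Agent.Helper78.LM.Goals

/-!
# The runs of the simulating machine
-/

namespace Pool.Agent.Helper78.LM

open Pool.Agent.Helper81.CC Pool.Agent.Helper51.ZP Pool.Agent.Bin Matrix Computability
open Pool.Agent.Helper31.TMSim Pool.Agent.Helper83.CL

theorem eval_mono (P : Polynomial ℕ) {a b : ℕ} (h : a ≤ b) : P.eval a ≤ P.eval b := by
  rw [Polynomial.eval_eq_sum_range, Polynomial.eval_eq_sum_range]
  exact Finset.sum_le_sum fun i _ => Nat.mul_le_mul_left _ (Nat.pow_le_pow_left h i)

theorem getD_unitV (j i : ℕ) : (unitV j).getD i false = decide (i = j) := by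
  rw [unitV]
  rcases Nat.lt_trichotomy i j with h | h | h
  · rw [List.getD_append _ _ _ _ (by simpa using h), List.getD_replicate _ h]
    simp [h.ne]
  · subst h
    rw [List.getD_append_right _ _ _ _ (by simp)]
    simp
  · rw [List.getD_eq_default _ _ (by simp; omega)]
    simp [h.ne']

theorem toVec_unitV (m j : ℕ) (i : Fin m) :
    toVec m (unitV j) i = if (i : ℕ) = j then 1 else 0 := by
  rw [toVec, getD_unitV]
  by_cases h : (i : ℕ) = j <;> simp [h]

theorem toVec_nil (m : ℕ) : toVec m [] = 0 := by
  funext i
  simp [toVec]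

theorem unitV_dot {m j : ℕ} (hj : j < m) (v : Fin m → ZMod 2) :
    toVec m (unitV j) ⬝ᵥ v = v ⟨j, hj⟩ := by
  rw [dotProduct, Finset.sum_eq_single ⟨j, hj⟩]
  · rw [toVec_unitV]; simp
  · intro i _ hi
    rw [toVec_unitV, if_neg (fun h => hi (Fin.ext h)), zero_mul]
  · simp

/-- the number with the digits `β 0, ..., β (i - 1)` -/
def num (β : ℕ → Bool) : ℕ → ℕ
  | 0 => 0
  | i + 1 => 2 * num β i + (β i).toNat

theorem num_lt (β : ℕ → Bool) (i : ℕ) : num β i < 2 ^ i := by
  induction i with
  | zero => simp [num]
  | succ i ih =>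
    rw [num, pow_succ]
    have := Bool.toNat_le (β i)
    omega

theorem digits_num (β : ℕ → Bool) (c : ℕ) : digits c (num β c) = (List.range c).map β := by
  rw [digits, List.map_map]
  apply List.map_congr_left
  intro i hi
  rw [List.mem_range] at hi
  simp only [Function.comp]
  -- `num β c / 2 ^ (c - 1 - i) = num β (i + 1)`
  have key : ∀ d, num β (i + 1 + d) / 2 ^ d = num β (i + 1) := by
    intro d
    induction d with
    | zero => simp
    | succ d ih =>
      rw [← add_assoc, num, pow_succ', ← Nat.div_div_eq_div_mul]
      have : (2 * num β (i + 1 + d) + (β (i + 1 + d)).toNat) / 2 = num β (i + 1 + d) := by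
        have := Bool.toNat_le (β (i + 1 + d))
        omega
      rw [this, ih]
  obtain ⟨d, rfl⟩ : ∃ d, c = i + 1 + d := ⟨c - (i + 1), by omega⟩
  have h1 : i + 1 + d - 1 - i = d := by omega
  simp only [h1]
  rw [key d, num]
  cases hb : β i <;> simp <;> omega

/-- runs with an invariant -/
theorem run_inv (A : LinMachine) (y : List Bool) (P : ℕ → Conf (A.dim y) → Prop) :
    ∀ (ρ : List Bool) (t : ℕ) (c : Conf (A.dim y)), P t c →
      (∀ i < ρ.length, ∀ c, P (t + i) c →
        ∃ c', A.step y (t + i) (ρ.getD i false) c = some c' ∧ P (t + i + 1) c') →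
      ∃ c', A.run y t ρ c = some c' ∧ P (t + ρ.length) c'
  | [], t, c, hc, _ => ⟨c, rfl, by simpa using hc⟩
  | b :: ρ, t, c, hc, h => by
    obtain ⟨c1, h1, h2⟩ := h 0 (by simp) c (by simpa using hc)
    have h3 := run_inv A y P ρ (t + 1) c1 (by simpa using h2) (by
      intro i hi c hc
      have := h (i + 1) (by simpa using hi) c (by
        rw [show t + (i + 1) = t + 1 + i by ring]; exact hc)
      rw [show t + (i + 1) = t + 1 + i by ring] at this
      simpa using this)
    obtain ⟨c2, h4, h5⟩ := h3
    refine ⟨c2, ?_, ?_⟩
    · rw [LinMachine.run]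
      simp only [Nat.add_zero, List.getD_cons_zero] at h1
      rw [h1]
      exact h4
    · rw [List.length_cons, show t + (ρ.length + 1) = t + 1 + ρ.length by ring]
      exact h5

section
variable (c : ℕ) (m S : Polynomial ℕ) (pred : List Bool × ℕ × ℕ → ℕ)
  (val : List Bool × ℕ × List Bool → Bool) (ok : List Bool → Bool)
  (arg : List Bool → List Bool) (d : Bool)
  (h1 : PolyTimeComputable (encOf View) (encOf ℕ) (simNext c m S val ok arg d))
  (h2 : PolyTimeComputable (encOf View) (encOf (List ℕ)) (fun _ => []))
  (h3 : PolyTimeComputable (encOf View) (encOf (List Bool)) (simVec c m S val ok arg))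
  (h4 : PolyTimeComputable (encOf (List Bool × ℕ × ℕ)) (encOf (List Bool)) simRow)
  (h5 : PolyTimeComputable (encOf (List Bool × ℕ)) (encOf (List Bool))
    (simForm c m S pred ok arg))
  (h6 : PolyTimeComputable (encOf (List Bool × ℕ)) (encOf Bool) (simReads c m S ok arg))

theorem simM_mat (y : List Bool) (t : ℕ)
    (v : Fin ((simM c m S pred val ok arg d h1 h2 h3 h4 h5 h6).dim y) → ZMod 2) :
    (simM c m S pred val ok arg d h1 h2 h3 h4 h5 h6).mat y t *ᵥ v = v := by
  funext i
  exact unitV_dot i.2 v

/-- one stage of the simulating machine -/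
theorem simM_step (y : List Bool) (t : ℕ) (b : Bool)
    (C : Conf ((simM c m S pred val ok arg d h1 h2 h3 h4 h5 h6).dim y)) (hst : C.st = [])
    (a : ZMod 2)
    (ha : toVec _ (simForm c m S pred ok arg (y, t)) ⬝ᵥ
      (C.v + toVec _ (simVec c m S val ok arg (y, t, C.q, 0, b, C.o))) = a)
    (hr : simReads c m S ok arg (y, t) = true ∨ a = 0) :
    (simM c m S pred val ok arg d h1 h2 h3 h4 h5 h6).step y t b C =
      some ⟨simNext c m S val ok arg d (y, t, C.q, 0, b, C.o), [],
        C.v + toVec _ (simVec c m S val ok arg (y, t, C.q, 0, b, C.o)), decide (a = 1)⟩ := by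
  have e1 : (simM c m S pred val ok arg d h1 h2 h3 h4 h5 h6).view y t b C =
      (y, t, C.q, 0, b, C.o) := by
    simp [LinMachine.view, hst]
  have e2 : (simM c m S pred val ok arg d h1 h2 h3 h4 h5 h6).mem y t b C =
      C.v + toVec _ (simVec c m S val ok arg (y, t, C.q, 0, b, C.o)) := by
    rw [LinMachine.mem, e1, simM_mat]
    rfl
  have e3 : (simM c m S pred val ok arg d h1 h2 h3 h4 h5 h6).value y t b C = a := by
    rw [LinMachine.value, e2]
    exact ha
  have hr' : (simM c m S pred val ok arg d h1 h2 h3 h4 h5 h6).reads (y, t) = true ∨ a = 0 := hr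
  rw [LinMachine.step, e3, if_pos hr', e1, e2, hst]
  rfl

theorem form_nil {y : List Bool} {t : ℕ} (h : simReads c m S ok arg (y, t) = false) :
    simForm c m S pred ok arg (y, t) = [] := by
  rw [simForm, h]
  rfl

/-- one stage which is not a reading stage -/
theorem simM_step' (y : List Bool) (t : ℕ) (b : Bool)
    (C : Conf ((simM c m S pred val ok arg d h1 h2 h3 h4 h5 h6).dim y)) (hst : C.st = [])
    (hr : simReads c m S ok arg (y, t) = false) :
    (simM c m S pred val ok arg d h1 h2 h3 h4 h5 h6).step y t b C =
      some ⟨simNext c m S val ok arg d (y, t, C.q, 0, b, C.o), [],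
        C.v + toVec _ (simVec c m S val ok arg (y, t, C.q, 0, b, C.o)), false⟩ := by
  have := simM_step c m S pred val ok arg d h1 h2 h3 h4 h5 h6 y t b C hst 0 (by
    rw [form_nil c m S pred ok arg hr, toVec_nil, zero_dotProduct]) (Or.inr rfl)
  rw [this]
  rfl

theorem mod_small {a n : ℕ} (h : a ≤ 1) : a % (2 ^ (n + 1) + 2) = a :=
  Nat.mod_eq_of_lt (by have : 0 < 2 ^ (n + 1) := by positivity
                       omega)

theorem run_notOk (y ρ : List Bool) (hok : ok y = false) (hρ : ρ ≠ []) :
    (simM c m S pred val ok arg d h1 h2 h3 h4 h5 h6).Accepts y ρ ↔ d = true := by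
  have hg : ∀ t, isGate c m S ok arg y t = false := fun t => by simp [isGate, hok]
  have hr : ∀ t, simReads c m S ok arg (y, t) = false := fun t => by simp [simReads, hg]
  obtain ⟨C, hC, hP⟩ := run_inv (simM c m S pred val ok arg d h1 h2 h3 h4 h5 h6) y
    (fun t C => C.st = [] ∧ (t ≠ 0 → C.q = d.toNat)) ρ 0 ⟨0, [], 0, false⟩ ⟨rfl, by simp⟩ (by
      rintro i _ C ⟨hst, _⟩
      refine ⟨_, simM_step' c m S pred val ok arg d h1 h2 h3 h4 h5 h6 y _ _ C hst (hr _), rfl,
        fun _ => ?_⟩
      simp only [simNext, hok, if_true]
      exact mod_small (Bool.toNat_le d))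
  have hne : 0 + ρ.length ≠ 0 := by
    have := List.length_pos_iff.2 hρ
    omega
  have hq := hP.2 hne
  rw [LinMachine.Accepts]
  constructor
  · rintro ⟨C', hC', hq', _⟩
    rw [hC, Option.some.injEq] at hC'
    subst hC'
    rw [hq] at hq'
    cases d
    · simp at hq'
    · rfl
  · intro hd
    exact ⟨C, hC, by rw [hq, hd]; rfl, hP.1⟩

end

section
variable {c : ℕ} {m S : Polynomial ℕ} {arg : List Bool → List Bool} {y : List Bool}

theorem gi_succ (t : ℕ) (ht : nCoins m arg y ≤ t) (hi : iNum c m arg y t < c) :
    gNum c m arg y (t + 1) = gNum c m arg y t ∧ iNum c m arg y (t + 1) = iNum c m arg y t + 1 := by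
  rw [iNum] at hi
  rw [gNum, gNum, iNum, iNum]
  set a := t - nCoins m arg y with ha
  have h1 : t + 1 - nCoins m arg y = a + 1 := by omega
  rw [h1]
  have h2 := Nat.div_add_mod a (c + 1)
  have h3 : a + 1 = (c + 1) * (a / (c + 1)) + (a % (c + 1) + 1) := by omega
  constructor
  · congr 1
    rw [h3, Nat.mul_add_div (by omega), Nat.div_eq_of_lt (show a % (c + 1) + 1 < c + 1 by omega)]
    omega
  · rw [h3, Nat.mul_add_mod, Nat.mod_eq_of_lt (show a % (c + 1) + 1 < c + 1 by omega)]

theorem gi_last (t : ℕ) (ht : nCoins m arg y ≤ t) (hi : iNum c m arg y t = c) :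
    gNum c m arg y (t + 1) = gNum c m arg y t + 1 ∧ iNum c m arg y (t + 1) = 0 := by
  rw [iNum] at hi
  rw [gNum, gNum, iNum]
  set a := t - nCoins m arg y with ha
  have h1 : t + 1 - nCoins m arg y = a + 1 := by omega
  rw [h1]
  have h2 := Nat.div_add_mod a (c + 1)
  have h3 : a + 1 = (c + 1) * (a / (c + 1) + 1) := by
    rw [Nat.mul_add, Nat.mul_one]; omega
  constructor
  · rw [h3, Nat.mul_div_cancel_left _ (by omega)]
    omega
  · rw [h3, Nat.mul_mod_right]

theorem iNum_le (t : ℕ) : iNum c m arg y t ≤ c := by
  rw [iNum]
  have := Nat.mod_lt (t - nCoins m arg y) (show 0 < c + 1 by omega)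
  omega

theorem gNum_mono {t t' : ℕ} (h : t ≤ t') : gNum c m arg y t ≤ gNum c m arg y t' := by
  rw [gNum, gNum]
  have := Nat.div_le_div_right (c := c + 1)
    (show t - nCoins m arg y ≤ t' - nCoins m arg y by omega)
  omega

end

theorem vec_update {m j : ℕ} (v : Fin m → ZMod 2) (B : ℕ → Bool)
    (hv : ∀ i : Fin m, v i = if (i : ℕ) < j then b2z (B i) else 0) (i : Fin m) :
    (v + toVec m (if B j = true then unitV j else [])) i =
      if (i : ℕ) < j + 1 then b2z (B i) else 0 := by
  rw [Pi.add_apply, hv]
  rcases Nat.lt_trichotomy (i : ℕ) j with h | h | h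
  · rw [if_pos h, if_pos (show (i : ℕ) < j + 1 by omega)]
    by_cases hb : B j = true
    · rw [if_pos hb, toVec_unitV, if_neg (by omega), add_zero]
    · rw [if_neg hb, toVec_nil, Pi.zero_apply, add_zero]
  · rw [if_neg (show ¬ (i : ℕ) < j by omega), if_pos (show (i : ℕ) < j + 1 by omega), zero_add, h]
    by_cases hb : B j = true
    · rw [if_pos hb, toVec_unitV, if_pos h, hb]; rfl
    · rw [if_neg hb, toVec_nil, Pi.zero_apply]
      rw [Bool.not_eq_true] at hb
      rw [hb]; rfl
  · rw [if_neg (show ¬ (i : ℕ) < j by omega), if_neg (show ¬ (i : ℕ) < j + 1 by omega), zero_add]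
    by_cases hb : B j = true
    · rw [if_pos hb, toVec_unitV, if_neg (by omega)]
    · rw [if_neg hb, toVec_nil, Pi.zero_apply]

section
variable (c : ℕ) (m S : Polynomial ℕ) (pred : List Bool × ℕ × ℕ → ℕ)
  (val : List Bool × ℕ × List Bool → Bool) (ok : List Bool → Bool)
  (arg : List Bool → List Bool) (d : Bool)
  (h1 : PolyTimeComputable (encOf View) (encOf ℕ) (simNext c m S val ok arg d))
  (h2 : PolyTimeComputable (encOf View) (encOf (List ℕ)) (fun _ => []))
  (h3 : PolyTimeComputable (encOf View) (encOf (List Bool)) (simVec c m S val ok arg))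
  (h4 : PolyTimeComputable (encOf (List Bool × ℕ × ℕ)) (encOf (List Bool)) simRow)
  (h5 : PolyTimeComputable (encOf (List Bool × ℕ)) (encOf (List Bool))
    (simForm c m S pred ok arg))
  (h6 : PolyTimeComputable (encOf (List Bool × ℕ)) (encOf Bool) (simReads c m S ok arg))

theorem run_ok (y ρ : List Bool) (hok : ok y = true) (hlen : (arg y).length ≤ y.length)
    (hρ : ρ.length = (simM c m S pred val ok arg d h1 h2 h3 h4 h5 h6).stages y) (out : Bool)
    (hL : Local c (S.eval (arg y).length) pred val (arg y) (ρ.take (m.eval (arg y).length)) out) :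
    (simM c m S pred val ok arg d h1 h2 h3 h4 h5 h6).Accepts y ρ ↔ out = true := by
  set A := simM c m S pred val ok arg d h1 h2 h3 h4 h5 h6 with hA
  have hT : A.stages y = m.eval y.length + S.eval y.length * (c + 1) + 1 := by
    rw [LinMachine.stages, hA, simM]
    simp
  have hdim : A.dim y = S.eval y.length := rfl
  set n := m.eval (arg y).length with hn
  have hnC : nCoins m arg y = n := rfl
  set Sx := S.eval (arg y).length with hSx
  have hSle : Sx ≤ A.dim y := by rw [hdim]; exact eval_mono S hlen
  have hnle : n ≤ m.eval y.length := eval_mono m hlen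
  obtain ⟨hS, B, hB0, hBr, hBg, hBout⟩ := hL
  have hrlen : (ρ.take n).length = n := by
    rw [List.length_take, hρ, hT]
    omega
  rw [hrlen] at hS hBr hBg
  have hBr' : ∀ j < n, B (j + 1) = ρ.getD j false := by
    intro j hj
    rw [hBr j hj]
    rw [List.getD_eq_getElem?_getD, List.getElem?_take, if_pos hj, List.getD_eq_getElem?_getD]
  -- the invariant
  set P : ℕ → Conf (A.dim y) → Prop := fun t C => C.st = [] ∧
    (t < n → ∀ i, C.v i = if (i : ℕ) < t + 1 then b2z (B i) else 0) ∧
    (n ≤ t → gNum c m arg y t < Sx →
      (∀ i, C.v i = if (i : ℕ) < gNum c m arg y t then b2z (B i) else 0) ∧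
      (iNum c m arg y t ≠ 0 → 2 * C.q + C.o.toNat =
        num (fun i => B (pred (arg y, gNum c m arg y t, i))) (iNum c m arg y t))) ∧
    (n ≤ t → Sx ≤ gNum c m arg y t → C.q = out.toNat) with hP
  have hg0 : gNum c m arg y n = n + 1 := by
    rw [gNum, hnC]; simp
  have hi0 : iNum c m arg y n = 0 := by
    rw [iNum, hnC]; simp
  have hstart : P 0 ⟨0, [], 0, false⟩ := by
    refine ⟨rfl, ?_, ?_, ?_⟩
    · intro _ i
      by_cases hi : (i : ℕ) < 0 + 1
      · rw [if_pos hi]
        have : (i : ℕ) = 0 := by omega
        rw [this, hB0]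
        rfl
      · rw [if_neg hi]; rfl
    · intro h0 _
      have hn0 : n = 0 := by omega
      rw [hn0] at hg0 hi0
      refine ⟨fun i => ?_, fun hi => absurd hi0 hi⟩
      rw [hg0]
      by_cases hi : (i : ℕ) < 0 + 1
      · rw [if_pos hi]
        have : (i : ℕ) = 0 := by omega
        rw [this, hB0]
        rfl
      · rw [if_neg hi]; rfl
    · intro h0 h
      have hn0 : n = 0 := by omega
      rw [hn0] at hg0
      rw [hg0] at h
      omega
  have hstep : ∀ t < ρ.length, ∀ C, P t C →
      ∃ C', A.step y t (ρ.getD t false) C = some C' ∧ P (t + 1) C' := by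
    rintro t - C ⟨hst, hp1, hp2, hp3⟩
    rcases Nat.lt_or_ge t n with htn | htn
    · -- a coin stage
      have hgate : isGate c m S ok arg y t = false := by
        simp [isGate, hnC, Nat.not_le.2 htn]
      have hr : simReads c m S ok arg (y, t) = false := by simp [simReads, hgate]
      refine ⟨_, simM_step' c m S pred val ok arg d h1 h2 h3 h4 h5 h6 y _ _ C hst hr, ?_⟩
      have hv : ∀ i : Fin (A.dim y), (C.v + toVec (A.dim y) (simVec c m S val ok arg
          (y, t, C.q, 0, ρ.getD t false, C.o))) i =
          if (i : ℕ) < t + 2 then b2z (B i) else 0 := by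
        intro i
        have e1 : simVec c m S val ok arg (y, t, C.q, 0, ρ.getD t false, C.o) =
            if B (t + 1) = true then unitV (t + 1) else [] := by
          rw [simVec, if_pos ⟨hok, by rw [hnC]; exact htn⟩, hBr' t htn]
        rw [e1]
        exact vec_update C.v B (hp1 htn) i
      refine ⟨rfl, fun _ => hv, ?_, ?_⟩
      · intro h _
        have htn' : t + 1 = n := by omega
        rw [htn', hg0, hi0]
        refine ⟨fun i => (hv i).trans ?_, fun h => absurd rfl h⟩
        rw [show t + 2 = n + 1 by omega]
      · intro h hh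
        have htn' : t + 1 = n := by omega
        rw [htn', hg0] at hh
        omega
    · rcases Nat.lt_or_ge (gNum c m arg y t) Sx with hg | hg
      · -- a stage of a bit
        obtain ⟨hv, hcur⟩ := hp2 htn hg
        set j := gNum c m arg y t with hj
        have hjn : n + 1 ≤ j := by
          rw [hj, gNum, hnC]
          exact Nat.le_add_right _ _
        obtain ⟨hpred, hBj⟩ := hBg j hjn hg
        have hgate : isGate c m S ok arg y t = true := by
          simp only [isGate, hok, hnC, Bool.and_eq_true, decide_eq_true_eq, true_and]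
          exact ⟨htn, hg⟩
        have hnumlt : ∀ i, i ≤ c → num (fun i => B (pred (arg y, j, i))) i <
            2 ^ (c + 1) + 2 := by
          intro i hi
          have e1 := num_lt (fun i => B (pred (arg y, j, i))) i
          have e2 : 2 ^ i ≤ 2 ^ (c + 1) := Nat.pow_le_pow_right (by norm_num) (by omega)
          omega
        have hcurv : ∀ b : Bool, cur c m arg (y, t, C.q, 0, b, C.o) =
            num (fun i => B (pred (arg y, j, i))) (iNum c m arg y t) := by
          intro b
          rw [cur]
          by_cases hi : iNum c m arg y t = 0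
          · rw [if_pos hi, hi]; rfl
          · rw [if_neg hi]
            exact hcur hi
        rcases Nat.lt_or_ge (iNum c m arg y t) c with hi | hi
        · -- a reading stage
          have hr : simReads c m S ok arg (y, t) = true := by
            simp [simReads, hgate, hi]
          have hvec : simVec c m S val ok arg (y, t, C.q, 0, ρ.getD t false, C.o) = [] := by
            rw [simVec, if_neg (by rw [hnC]; simp only; omega), if_neg]
            rintro ⟨-, e, -⟩
            simp only at e
            omega
          have hpj := hpred _ hi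
          have hval : toVec (A.dim y) (simForm c m S pred ok arg (y, t)) ⬝ᵥ
              (C.v + toVec (A.dim y)
                (simVec c m S val ok arg (y, t, C.q, 0, ρ.getD t false, C.o))) =
              b2z (B (pred (arg y, j, iNum c m arg y t))) := by
            rw [hvec, toVec_nil, add_zero, simForm, if_pos hr]
            simp only
            rw [unitV_dot (show pred (arg y, gNum c m arg y t, iNum c m arg y t) < A.dim y from
              lt_of_lt_of_le hpj (by omega)), hv, if_pos hpj]
          refine ⟨_, simM_step c m S pred val ok arg d h1 h2 h3 h4 h5 h6 y _ _ C hst _ hval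
            (Or.inl hr), rfl, fun h => by omega, ?_, ?_⟩
          · intro _ _
            obtain ⟨e1, e2⟩ := gi_succ t (by rw [hnC]; exact htn) hi
            rw [e1, e2]
            refine ⟨fun i => ?_, fun _ => ?_⟩
            · rw [hvec, toVec_nil, add_zero]
              exact hv i
            · rw [num]
              have e3 : simNext c m S val ok arg d (y, t, C.q, 0, ρ.getD t false, C.o) =
                  num (fun i => B (pred (arg y, j, i))) (iNum c m arg y t) := by
                rw [simNext, if_neg (by simp [hok]), if_neg (by rw [hnC]; simp only; omega),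
                  if_pos hgate, if_neg (by simp only; omega), hcurv]
                exact Nat.mod_eq_of_lt (hnumlt _ hi.le)
              have e4 : decide (b2z (B (pred (arg y, j, iNum c m arg y t))) = 1) =
                  B (pred (arg y, j, iNum c m arg y t)) := z2b_b2z _
              simp only [e3, e4]
              rfl
          · intro _ hh
            obtain ⟨e1, e2⟩ := gi_succ t (by rw [hnC]; exact htn) hi
            rw [e1] at hh
            omega
        · -- the last stage of a bit
          have hi' : iNum c m arg y t = c := le_antisymm (iNum_le t) hi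
          have hr : simReads c m S ok arg (y, t) = false := by
            simp [simReads, hgate, hi']
          have hgv : ∀ b : Bool, gVal c m val arg (y, t, C.q, 0, b, C.o) = B j := by
            intro b
            rw [gVal, hcurv, hi', digits_num, hBj]
          have hvec : simVec c m S val ok arg (y, t, C.q, 0, ρ.getD t false, C.o) =
              if B j = true then unitV j else [] := by
            rw [simVec, if_neg (by rw [hnC]; simp only; omega)]
            by_cases hb : B j = true
            · rw [if_pos ⟨hgate, hi', by rw [hgv]; exact hb⟩, if_pos hb]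
            · rw [if_neg (fun e => hb (by rw [← hgv]; exact e.2.2)), if_neg hb]
          obtain ⟨e1, e2⟩ := gi_last t (by rw [hnC]; exact htn) hi'
          refine ⟨_, simM_step' c m S pred val ok arg d h1 h2 h3 h4 h5 h6 y _ _ C hst hr, rfl,
            fun h => by omega, ?_, ?_⟩
          · intro _ _
            rw [e1, e2]
            refine ⟨fun i => ?_, fun h => absurd rfl h⟩
            rw [hvec]
            exact vec_update C.v B hv i
          · intro _ hh
            rw [e1] at hh
            have hjS : j = Sx - 1 := by omega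
            have e3 : simNext c m S val ok arg d (y, t, C.q, 0, ρ.getD t false, C.o) =
                (B j).toNat := by
              rw [simNext, if_neg (by simp [hok]), if_neg (by rw [hnC]; simp only; omega),
                if_pos hgate, if_pos hi', hgv]
              exact mod_small (Bool.toNat_le _)
            simp only [e3]
            rw [hjS, hBout]
      · -- after the last bit
        have hgate : isGate c m S ok arg y t = false := by
          simp only [isGate, hok, hnC, Bool.true_and, Bool.and_eq_false_iff, decide_eq_false_iff_not]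
          right
          exact Nat.not_lt.2 hg
        have hr : simReads c m S ok arg (y, t) = false := by simp [simReads, hgate]
        have hq := hp3 htn hg
        have hmono : gNum c m arg y t ≤ gNum c m arg y (t + 1) := gNum_mono (by omega)
        refine ⟨_, simM_step' c m S pred val ok arg d h1 h2 h3 h4 h5 h6 y _ _ C hst hr, rfl,
          fun h => by omega, fun _ h => by omega, fun _ _ => ?_⟩
        have e3 : simNext c m S val ok arg d (y, t, C.q, 0, ρ.getD t false, C.o) = C.q := by
          rw [simNext, if_neg (by simp [hok]), if_neg (by rw [hnC]; simp only; omega),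
            if_neg (by simp [hgate])]
          simp only
          rw [hq]
          exact mod_small (Bool.toNat_le _)
        simp only [e3]
        exact hq
  obtain ⟨C, hC, hPC⟩ := run_inv A y P ρ 0 ⟨0, [], 0, false⟩ hstart (by
    intro i hi C hC
    rw [Nat.zero_add] at hC ⊢
    exact hstep i hi C hC)
  rw [Nat.zero_add, hρ, hT] at hPC
  have hfin : Sx ≤ gNum c m arg y (m.eval y.length + S.eval y.length * (c + 1) + 1) := by
    rw [gNum, hnC]
    have e1 : S.eval y.length ≤
        (m.eval y.length + S.eval y.length * (c + 1) + 1 - n) / (c + 1) := by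
      rw [Nat.le_div_iff_mul_le (by omega)]
      omega
    have e2 : Sx ≤ S.eval y.length := hSle
    omega
  have hq := hPC.2.2.2 (by omega) hfin
  rw [LinMachine.Accepts]
  constructor
  · rintro ⟨C', hC', hq', _⟩
    rw [hC, Option.some.injEq] at hC'
    subst hC'
    rw [hq] at hq'
    cases out
    · simp at hq'
    · rfl
  · intro hd
    exact ⟨C, hC, by rw [hq, hd]; rfl, hPC.1⟩

end

/-- **SMR.** -/
theorem smr : SmrStmt := by
  intro c m S pred val ok arg d h1 h2 h3 h4 h5 h6 y ρ hρ
  refine ⟨fun hok => ?_, fun hok hlen out hL => ?_⟩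
  · refine run_notOk c m S pred val ok arg d h1 h2 h3 h4 h5 h6 y ρ hok ?_
    intro h
    rw [h] at hρ
    rw [LinMachine.stages, simM] at hρ
    simp at hρ
  · exact run_ok c m S pred val ok arg d h1 h2 h3 h4 h5 h6 y ρ hok hlen hρ out hL

end Pool.Agent.Helper78.LM
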